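import Mathlib
set_option autoImplicit false

/-!
Integrability of some functions on the complex plane with singularities at finitely many points.
-/

namespace Pool.Agent.H840.KO

open MeasureTheory Set Metric

/-- `‖x‖ ^ (-α)` is integrable on balls for `α < 2`. -/
theorem integrableOn_ball_zero {α R : ℝ} (hα : α < 2) :
    IntegrableOn (fun x : ℂ => ‖x‖ ^ (-α)) (ball 0 R) := by
  rcases le_or_gt R 0 with hR | hR
  · rw [ball_eq_empty.2 hR]
    exact integrableOn_empty
  have h1 : Integrable (fun x : ℂ => (Iio R).indicator (fun r : ℝ => r ^ (-α)) ‖x‖) := by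
    rw [integrable_fun_norm_addHaar]
    have h2 : IntegrableOn (fun y : ℝ => y ^ (1 - α)) (Ioo 0 R) := by
      rw [← integrableOn_Ioc_iff_integrableOn_Ioo]
      rw [← intervalIntegrable_iff_integrableOn_Ioc_of_le hR.le]
      exact intervalIntegral.intervalIntegrable_rpow' (by linarith)
    have h3 : IntegrableOn ((Iio R).indicator fun y : ℝ => y ^ (1 - α)) (Ioi 0) := by
      rw [IntegrableOn, integrable_indicator_iff measurableSet_Iio, IntegrableOn,
        Measure.restrict_restrict measurableSet_Iio]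
      have : Iio R ∩ Ioi 0 = Ioo 0 R := by ext; simp [and_comm]
      rw [this]
      exact h2
    refine h3.congr_fun (fun y hy => ?_) measurableSet_Ioi
    rw [Complex.finrank_real_complex]
    by_cases hyR : y ∈ Iio R
    · rw [indicator_of_mem hyR, indicator_of_mem hyR]
      have hy0 : (0 : ℝ) < y := hy
      simp only [Nat.add_one_sub_one, pow_one, smul_eq_mul]
      rw [sub_eq_add_neg, Real.rpow_add hy0, Real.rpow_one]
    · rw [indicator_of_notMem hyR, indicator_of_notMem hyR]
      simp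
  have h4 : (fun x : ℂ => (Iio R).indicator (fun r : ℝ => r ^ (-α)) ‖x‖) =
      (ball (0 : ℂ) R).indicator fun x : ℂ => ‖x‖ ^ (-α) := by
    funext x
    by_cases hx : x ∈ ball (0 : ℂ) R
    · rw [indicator_of_mem hx, indicator_of_mem]
      simpa using hx
    · rw [indicator_of_notMem hx, indicator_of_notMem]
      simpa using hx
  rw [h4, integrable_indicator_iff measurableSet_ball] at h1
  exact h1

theorem integrableOn_ball {α : ℝ} (hα : α < 2) (c : ℂ) (R : ℝ) :
    IntegrableOn (fun x : ℂ => ‖x - c‖ ^ (-α)) (ball 0 R) := by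
  have h1 := integrableOn_ball_zero (R := R + ‖c‖) hα
  have h2 : IntegrableOn (fun x : ℂ => ‖x - c‖ ^ (-α)) ((fun x => x - c) ⁻¹' ball 0 (R + ‖c‖)) := by
    have hm : MeasurePreserving (fun x : ℂ => x - c) volume volume := measurePreserving_sub_right _ c
    exact (hm.integrableOn_comp_preimage (MeasurableEquiv.subRight c).measurableEmbedding).2 h1
  refine h2.mono_set fun x hx => ?_
  simp only [mem_preimage, mem_ball_zero_iff] at hx ⊢
  have := norm_sub_le x c
  linarith

/-- `‖x‖ ^ (-α)` is integrable outside of balls for `α > 2`. -/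
theorem integrableOn_compl_ball {α R : ℝ} (hα : 2 < α) (hR : 0 < R) :
    IntegrableOn (fun x : ℂ => ‖x‖ ^ (-α)) (ball 0 R)ᶜ := by
  have h1 : Integrable (fun x : ℂ => (Ici R).indicator (fun r : ℝ => r ^ (-α)) ‖x‖) := by
    rw [integrable_fun_norm_addHaar]
    have h2 : IntegrableOn (fun y : ℝ => y ^ (1 - α)) (Ici R) := by
      rw [integrableOn_Ici_iff_integrableOn_Ioi]
      exact integrableOn_Ioi_rpow_of_lt (by linarith) hR
    have h3 : IntegrableOn ((Ici R).indicator fun y : ℝ => y ^ (1 - α)) (Ioi 0) := by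
      rw [IntegrableOn, integrable_indicator_iff measurableSet_Ici, IntegrableOn,
        Measure.restrict_restrict measurableSet_Ici]
      have : Ici R ∩ Ioi 0 = Ici R := by
        ext y
        simp only [mem_inter_iff, mem_Ici, mem_Ioi, and_iff_left_iff_imp]
        intro h; linarith
      rw [this]
      exact h2
    refine h3.congr_fun (fun y hy => ?_) measurableSet_Ioi
    rw [Complex.finrank_real_complex]
    by_cases hyR : y ∈ Ici R
    · rw [indicator_of_mem hyR, indicator_of_mem hyR]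
      have hy0 : (0 : ℝ) < y := hy
      simp only [Nat.add_one_sub_one, pow_one, smul_eq_mul]
      rw [sub_eq_add_neg, Real.rpow_add hy0, Real.rpow_one]
    · rw [indicator_of_notMem hyR, indicator_of_notMem hyR]
      simp
  have h4 : (fun x : ℂ => (Ici R).indicator (fun r : ℝ => r ^ (-α)) ‖x‖) =
      ((ball (0 : ℂ) R)ᶜ).indicator fun x : ℂ => ‖x‖ ^ (-α) := by
    funext x
    by_cases hx : x ∈ (ball (0 : ℂ) R)ᶜ
    · rw [indicator_of_mem hx, indicator_of_mem]
      simpa using hx
    · rw [indicator_of_notMem hx, indicator_of_notMem]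
      simpa using hx
  rw [h4, integrable_indicator_iff measurableSet_ball.compl] at h1
  exact h1

/-- The function `1 / (|ξ| |ξ ^ 2 - 1|)`. -/
noncomputable def hone (x : ℂ) : ℝ := (‖x‖ * ‖x ^ 2 - 1‖)⁻¹

theorem norm_sq_sub_one (x : ℂ) : ‖x ^ 2 - 1‖ = ‖x - 1‖ * ‖x + 1‖ := by
  rw [← norm_mul]
  congr 1
  ring

theorem two_le_add (x : ℂ) : 2 ≤ ‖x - 1‖ + ‖x + 1‖ := by
  have h := norm_sub_le (x + 1) (x - 1)
  have h2 : x + 1 - (x - 1) = 2 := by ring
  rw [h2] at h
  have h3 : ‖(2 : ℂ)‖ = 2 := by simp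
  linarith

theorem one_le_add_one (x : ℂ) : 1 ≤ ‖x‖ + ‖x + 1‖ := by
  have h := norm_sub_le (x + 1) x
  have h2 : x + 1 - x = 1 := by ring
  rw [h2] at h
  simp only [norm_one] at h
  linarith

theorem one_le_sub_one (x : ℂ) : 1 ≤ ‖x‖ + ‖x - 1‖ := by
  have h := norm_sub_le x (x - 1)
  have h2 : x - (x - 1) = 1 := by ring
  rw [h2] at h
  simp only [norm_one] at h
  linarith

theorem inv_mul_three {a b c : ℝ} (ha : 0 ≤ a) (hb : 0 ≤ b) (hc : 0 ≤ c) (hab : 1 ≤ a + b)
    (hac : 1 ≤ a + c) (hbc : 1 ≤ b + c) :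
    (a * (b * c))⁻¹ ≤ 4 * (a⁻¹ + b⁻¹ + c⁻¹) := by
  have key : ∀ x y z : ℝ, 0 ≤ x → 1 / 2 ≤ y → 1 / 2 ≤ z → (x * (y * z))⁻¹ ≤ 4 * x⁻¹ := by
    intro x y z hx hy hz
    rw [mul_inv]
    have h1 : (y * z)⁻¹ ≤ 4 := by
      rw [inv_le_comm₀ (by positivity) (by norm_num)]
      nlinarith
    have h2 : 0 ≤ x⁻¹ := inv_nonneg.2 hx
    nlinarith
  have ha' : 0 ≤ a⁻¹ := inv_nonneg.2 ha
  have hb' : 0 ≤ b⁻¹ := inv_nonneg.2 hb
  have hc' : 0 ≤ c⁻¹ := inv_nonneg.2 hc
  rcases le_or_gt (1 / 2) a with h1 | h1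
  · rcases le_or_gt (1 / 2) b with h2 | h2
    · have := key c a b hc h1 h2
      rw [show a * (b * c) = c * (a * b) by ring]
      nlinarith
    · have := key b a c hb h1 (by linarith)
      rw [show a * (b * c) = b * (a * c) by ring]
      nlinarith
  · have := key a b c ha (by linarith) (by linarith)
    nlinarith

theorem hone_nonneg (x : ℂ) : 0 ≤ hone x := by
  unfold hone; positivity

theorem hone_le_near (x : ℂ) : hone x ≤ 4 * (‖x‖⁻¹ + ‖x - 1‖⁻¹ + ‖x + 1‖⁻¹) := by
  unfold hone
  rw [norm_sq_sub_one]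
  exact inv_mul_three (norm_nonneg _) (norm_nonneg _) (norm_nonneg _) (one_le_sub_one x)
    (one_le_add_one x) (by have := two_le_add x; linarith)

theorem sq_sub_one_ge {x : ℂ} (hx : 2 ≤ ‖x‖) : 3 / 4 * ‖x‖ ^ 2 ≤ ‖x ^ 2 - 1‖ := by
  have h := norm_sub_norm_le (x ^ 2) 1
  rw [norm_pow, norm_one] at h
  nlinarith

theorem hone_le_far {x : ℂ} (hx : 2 ≤ ‖x‖) : hone x ≤ 4 / 3 * ‖x‖ ^ (-3 : ℝ) := by
  unfold hone
  have h := sq_sub_one_ge hx
  have h0 : 0 < ‖x‖ := by linarith
  rw [Real.rpow_neg h0.le]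
  have h3 : ‖x‖ ^ (3 : ℝ) = ‖x‖ ^ 3 := by exact_mod_cast Real.rpow_natCast ‖x‖ 3
  rw [h3]
  rw [show (4 : ℝ) / 3 * (‖x‖ ^ 3)⁻¹ = (3 / 4 * ‖x‖ ^ 3)⁻¹ by rw [mul_inv]; norm_num]
  apply inv_anti₀ (by positivity)
  nlinarith

theorem measurable_hone : Measurable hone := by
  unfold hone
  fun_prop

theorem inv_eq_rpow (x : ℂ) : ‖x‖⁻¹ = ‖x‖ ^ (-(1 : ℝ)) := by
  rw [Real.rpow_neg (norm_nonneg _), Real.rpow_one]

theorem integrable_hone : Integrable hone := by
  have h1 : IntegrableOn hone (ball 0 2) := by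
    have h2 : IntegrableOn (fun x : ℂ => 4 * (‖x‖⁻¹ + ‖x - 1‖⁻¹ + ‖x + 1‖⁻¹)) (ball 0 2) := by
      refine Integrable.const_mul ?_ 4
      refine Integrable.add (Integrable.add ?_ ?_) ?_
      · have := integrableOn_ball (α := 1) (by norm_num) 0 2
        refine this.congr (Filter.Eventually.of_forall fun x => ?_)
        simp only [sub_zero]
        rw [inv_eq_rpow]
      · have := integrableOn_ball (α := 1) (by norm_num) 1 2
        refine this.congr (Filter.Eventually.of_forall fun x => ?_)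
        simp only
        rw [inv_eq_rpow]
      · have := integrableOn_ball (α := 1) (by norm_num) (-1) 2
        refine this.congr (Filter.Eventually.of_forall fun x => ?_)
        simp only [sub_neg_eq_add]
        rw [inv_eq_rpow]
    refine Integrable.mono' h2 measurable_hone.aestronglyMeasurable.restrict ?_
    refine Filter.Eventually.of_forall fun x => ?_
    rw [Real.norm_of_nonneg (hone_nonneg x)]
    exact hone_le_near x
  have h3 : IntegrableOn hone (ball 0 2)ᶜ := by
    have h4 : IntegrableOn (fun x : ℂ => 4 / 3 * ‖x‖ ^ (-3 : ℝ)) (ball 0 2)ᶜ :=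
      (integrableOn_compl_ball (α := 3) (by norm_num) (by norm_num)).const_mul _
    refine Integrable.mono' h4 measurable_hone.aestronglyMeasurable.restrict ?_
    refine (ae_restrict_iff' measurableSet_ball.compl).2 (Filter.Eventually.of_forall fun x hx => ?_)
    rw [Real.norm_of_nonneg (hone_nonneg x)]
    refine hone_le_far ?_
    simpa using hx
  have := h1.union h3
  rwa [union_compl_self, integrableOn_univ] at this

end Pool.Agent.H840.KO
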