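import Pool.Agent.H840.KO.Est
set_option autoImplicit false

/-!
The lower bound of the real part of the integral.
-/

namespace Pool.Agent.H840.KO

open MeasureTheory Set Metric

theorem Lam_mul_re_nonpos (x : ℂ) : Lam x * x.re ≤ 0 := by
  have hsq1 : ‖x - 1‖ ^ 2 = (x.re - 1) ^ 2 + x.im ^ 2 := by
    rw [Complex.sq_norm, Complex.normSq_apply]
    simp
    ring
  have hsq2 : ‖x + 1‖ ^ 2 = (x.re + 1) ^ 2 + x.im ^ 2 := by
    rw [Complex.sq_norm, Complex.normSq_apply]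
    simp
    ring
  have hp := norm_nonneg (x - 1)
  have hq := norm_nonneg (x + 1)
  unfold Lam
  set p := ‖x - 1‖
  set q := ‖x + 1‖
  rcases le_total 0 x.re with h | h
  · have h1 : p ≤ q := by
      by_contra hc
      push Not at hc
      nlinarith
    have h2 : Real.log (p / q) ≤ 0 := by
      apply Real.log_nonpos (by positivity)
      exact div_le_one_of_le₀ h1 hq
    exact mul_nonpos_of_nonpos_of_nonneg h2 h
  · have h1 : q ≤ p := by
      by_contra hc
      push Not at hc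
      nlinarith
    rcases hq.eq_or_lt with h0 | h0
    · rw [← h0, div_zero, Real.log_zero, zero_mul]
    · have h2 : 0 ≤ Real.log (p / q) := by
        apply Real.log_nonneg
        rwa [one_le_div h0]
      exact mul_nonpos_of_nonneg_of_nonpos h2 h

theorem neg_Lam_ge {x : ℂ} (hx : 1 < x.re) : 2 * x.re / ‖x + 1‖ ^ 2 ≤ - Lam x := by
  have hsq1 : ‖x - 1‖ ^ 2 = (x.re - 1) ^ 2 + x.im ^ 2 := by
    rw [Complex.sq_norm, Complex.normSq_apply]
    simp
    ring
  have hsq2 : ‖x + 1‖ ^ 2 = (x.re + 1) ^ 2 + x.im ^ 2 := by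
    rw [Complex.sq_norm, Complex.normSq_apply]
    simp
    ring
  have hp : 0 < ‖x - 1‖ := by
    rw [norm_pos_iff]
    intro h
    have := congrArg Complex.re h
    simp at this
    linarith
  have hq : 0 < ‖x + 1‖ := by
    rw [norm_pos_iff]
    intro h
    have := congrArg Complex.re h
    simp at this
    linarith
  unfold Lam
  set p := ‖x - 1‖
  set q := ‖x + 1‖
  have hpq : p ≤ q := by
    by_contra hc
    push Not at hc
    nlinarith
  have h1 := Real.log_le_sub_one_of_pos (div_pos hp hq)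
  have h2 : 2 * x.re / q ^ 2 ≤ 1 - p / q := by
    rw [div_le_iff₀ (by positivity)]
    have h3 : (1 - p / q) * q ^ 2 = (q - p) * q := by
      field_simp
    rw [h3]
    have h4 : (q - p) * (q + p) = 4 * x.re := by nlinarith
    nlinarith
  linarith

/-- dyadic boxes -/
def box (k : ℕ) : Set ℂ := {x | x.re ∈ Ico ((2 : ℝ) ^ k) (2 ^ (k + 1)) ∧ x.im ∈ Ico (0 : ℝ) (2 ^ k)}

theorem measurableSet_box (k : ℕ) : MeasurableSet (box k) :=
  (Complex.measurable_re measurableSet_Ico).inter (Complex.measurable_im measurableSet_Ico)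

theorem volume_box (k : ℕ) : volume.real (box k) = 4 ^ k := by
  have h1 : box k = Complex.measurableEquivRealProd ⁻¹'
      (Ico ((2 : ℝ) ^ k) (2 ^ (k + 1)) ×ˢ Ico (0 : ℝ) (2 ^ k)) := by
    ext x
    rfl
  rw [Measure.real, h1, Complex.volume_preserving_equiv_real_prod.measure_preimage
    (measurableSet_Ico.prod measurableSet_Ico).nullMeasurableSet, Measure.volume_eq_prod,
    Measure.prod_prod, Real.volume_Ico, Real.volume_Ico, ENNReal.toReal_mul,
    ENNReal.toReal_ofReal (by rw [pow_succ]; have : (0 : ℝ) < 2 ^ k := by positivity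
                              linarith),
    ENNReal.toReal_ofReal (by simp)]
  rw [show (4 : ℝ) ^ k = 2 ^ k * 2 ^ k by rw [← mul_pow]; norm_num]
  rw [pow_succ]
  ring

theorem volume_box_ne_top (k : ℕ) : volume (box k) ≠ ⊤ := by
  intro h
  have := volume_box k
  rw [Measure.real, h, ENNReal.toReal_top] at this
  have h2 : (0 : ℝ) < 4 ^ k := by positivity
  linarith

theorem box_bound {S T x : ℂ} {k : ℕ} (hk : 1 ≤ k) (hS : 20 * 4 ^ k ≤ ‖S‖)
    (h4 : 4 * ‖S‖ ≤ ‖T‖) (hx : x ∈ box k) : 2 / 87 * (4 ^ k : ℝ)⁻¹ ≤ - (F S T x * x.re) := by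
  obtain ⟨⟨h1, h2⟩, h3, h5⟩ := hx
  rw [pow_succ] at h2
  have hk2 : (2 : ℝ) ≤ 2 ^ k := by
    calc (2 : ℝ) = 2 ^ 1 := by norm_num
      _ ≤ 2 ^ k := pow_le_pow_right₀ (by norm_num) hk
  have h44 : (4 : ℝ) ^ k = 2 ^ k * 2 ^ k := by rw [← mul_pow]; norm_num
  rw [h44] at hS ⊢
  have hxn : ‖x‖ ^ 2 = x.re ^ 2 + x.im ^ 2 := by
    rw [Complex.sq_norm, Complex.normSq_apply]
    ring
  have hsq2 : ‖x + 1‖ ^ 2 = (x.re + 1) ^ 2 + x.im ^ 2 := by
    rw [Complex.sq_norm, Complex.normSq_apply]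
    simp
    ring
  set b : ℝ := 2 ^ k
  have hb0 : 0 < b := by linarith
  have hx1 : 1 < x.re := by linarith
  have hn : ‖x‖ ^ 2 ≤ 5 * (b * b) := by rw [hxn]; nlinarith
  have hSp : 0 < ‖S‖ := by
    have : 0 < b * b := by positivity
    linarith
  have hw := wt_ge_half (x := x) hSp h4 (by linarith)
  have hL := neg_Lam_ge hx1
  have hq : ‖x + 1‖ ^ 2 ≤ 29 / 4 * (b * b) := by
    rw [hsq2]
    nlinarith
  have hq0 : 0 < ‖x + 1‖ ^ 2 := by rw [hsq2]; nlinarith
  have hL2 : 8 / 29 ≤ - Lam x * x.re := by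
    calc (8 : ℝ) / 29 ≤ 2 * x.re / ‖x + 1‖ ^ 2 * x.re := by
          rw [div_mul_eq_mul_div, le_div_iff₀ hq0]
          nlinarith
      _ ≤ _ := mul_le_mul_of_nonneg_right hL (by linarith)
  have hm : ‖x ^ 2 - 1‖ ≤ 6 * (b * b) := by
    have := norm_sub_le (x ^ 2) 1
    rw [norm_pow, norm_one] at this
    nlinarith
  have hm0 : 0 < ‖x ^ 2 - 1‖ := by
    rw [norm_pos_iff]
    intro h
    have h6 : ‖x ^ 2‖ = 1 := by
      rw [sub_eq_zero.1 h, norm_one]
    rw [norm_pow, hxn] at h6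
    nlinarith
  have h7 : - (F S T x * x.re) = (- Lam x * x.re) * wt S T x / ‖x ^ 2 - 1‖ := by
    unfold F
    ring
  rw [h7]
  calc 2 / 87 * (b * b)⁻¹ = (8 / 29 * (1 / 2)) / (6 * (b * b)) := by
        field_simp
        norm_num
    _ ≤ _ := by
        apply div_le_div₀ _ _ hm0 hm
        · exact mul_nonneg (by linarith) (wt_nonneg _ _ _)
        · exact mul_le_mul hL2 hw (by norm_num) (by linarith)

theorem box_integral {S T : ℂ} {k : ℕ} (hk : 1 ≤ k) (hS : 20 * 4 ^ k ≤ ‖S‖)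
    (h4 : 4 * ‖S‖ ≤ ‖T‖) : 2 / 87 ≤ ∫ x in box k, - (F S T x * x.re) := by
  have h16 : 16 ≤ ‖S‖ := by
    have : (1 : ℝ) ≤ 4 ^ k := one_le_pow₀ (by norm_num)
    linarith
  have h1 : ∫ _ in box k, 2 / 87 * (4 ^ k : ℝ)⁻¹ ≤ ∫ x in box k, - (F S T x * x.re) :=
    setIntegral_mono_on (integrableOn_const (volume_box_ne_top k))
      (integrable_F_re h16 h4).neg.integrableOn (measurableSet_box k)
      fun x hx => box_bound hk hS h4 hx
  rw [setIntegral_const, volume_box, smul_eq_mul] at h1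
  have h2 : (4 : ℝ) ^ k * (2 / 87 * (4 ^ k : ℝ)⁻¹) = 2 / 87 := by
    field_simp
  linarith

theorem neg_F_re_nonneg (S T x : ℂ) : 0 ≤ - (F S T x * x.re) := by
  unfold F
  have h1 := Lam_mul_re_nonpos x
  have h2 : -(Lam x / ‖x ^ 2 - 1‖ * wt S T x * x.re) =
      (-(Lam x * x.re)) * (wt S T x / ‖x ^ 2 - 1‖) := by ring
  rw [h2]
  have := wt_nonneg S T x
  apply mul_nonneg (by linarith) (by positivity)

theorem integral_re_ge {S T : ℂ} (n : ℕ) (hS : 20 * 4 ^ n ≤ ‖S‖)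
    (h4 : 4 * ‖S‖ ≤ ‖T‖) : n * (2 / 87) ≤ ∫ x, - (F S T x * x.re) := by
  have h16 : 16 ≤ ‖S‖ := by
    have : (1 : ℝ) ≤ 4 ^ n := one_le_pow₀ (by norm_num)
    linarith
  have hint := (integrable_F_re h16 h4).neg
  have h1 : ∫ x in ⋃ k ∈ Finset.Icc 1 n, box k, - (F S T x * x.re) =
      ∑ k ∈ Finset.Icc 1 n, ∫ x in box k, - (F S T x * x.re) := by
    refine integral_biUnion_finset _ (fun k _ => measurableSet_box k) ?_
      (fun k _ => hint.integrableOn)
    intro i _ j _ hij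
    have key : ∀ i j : ℕ, i < j → Disjoint (box i) (box j) := by
      intro i j h
      rw [Set.disjoint_left]
      rintro x ⟨⟨_, h2⟩, _⟩ ⟨⟨h3, _⟩, _⟩
      have h5 : (2 : ℝ) ^ (i + 1) ≤ 2 ^ j := pow_le_pow_right₀ (by norm_num) h
      linarith
    rcases lt_or_gt_of_ne hij with h | h
    · exact key i j h
    · exact (key j i h).symm
  have h2 : (n : ℝ) * (2 / 87) ≤ ∑ k ∈ Finset.Icc 1 n, ∫ x in box k, - (F S T x * x.re) := by
    have : (n : ℝ) * (2 / 87) = ∑ k ∈ Finset.Icc 1 n, (2 / 87 : ℝ) := by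
      simp
    rw [this]
    refine Finset.sum_le_sum fun k hk => ?_
    rw [Finset.mem_Icc] at hk
    refine box_integral hk.1 ?_ h4
    have : (4 : ℝ) ^ k ≤ 4 ^ n := pow_le_pow_right₀ (by norm_num) hk.2
    linarith
  rw [← h1] at h2
  refine h2.trans (setIntegral_le_integral hint (Filter.Eventually.of_forall fun x => ?_))
  exact neg_F_re_nonneg S T x

/-- the main integral -/
noncomputable def MM (S T : ℂ) : ℂ := ∫ x : ℂ, ((F S T x : ℝ) : ℂ) * x

theorem integrable_F_mul {S T : ℂ} (h16 : 16 ≤ ‖S‖) (h4 : 4 * ‖S‖ ≤ ‖T‖) :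
    Integrable fun x : ℂ => ((F S T x : ℝ) : ℂ) * x := by
  refine Integrable.mono' (integrable_G_wt h16 h4)
    ((Complex.measurable_ofReal.comp (measurable_F S T)).mul measurable_id).aestronglyMeasurable ?_
  refine Filter.Eventually.of_forall fun x => ?_
  rw [← abs_F_mul_le, norm_mul, Complex.norm_real]
  rfl

theorem MM_re {S T : ℂ} (h16 : 16 ≤ ‖S‖) (h4 : 4 * ‖S‖ ≤ ‖T‖) :
    (MM S T).re = ∫ x, F S T x * x.re := by
  have h := integral_re (𝕜 := ℂ) (integrable_F_mul h16 h4)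
  simp only [RCLike.re_to_complex, Complex.re_ofReal_mul] at h
  rw [h]
  rfl

theorem MM_im {S T : ℂ} (h16 : 16 ≤ ‖S‖) (h4 : 4 * ‖S‖ ≤ ‖T‖) :
    (MM S T).im = ∫ x, F S T x * x.im := by
  have h := integral_im (𝕜 := ℂ) (integrable_F_mul h16 h4)
  simp only [RCLike.im_to_complex, Complex.im_ofReal_mul] at h
  rw [h]
  rfl

theorem exists_bound : ∃ R0 : ℝ, 16 ≤ R0 ∧ ∀ S T : ℂ, R0 ≤ ‖S‖ → 4 * ‖S‖ ≤ ‖T‖ →
    (MM S T).re < 0 ∧ 4 * |(MM S T).im| ≤ -(MM S T).re := by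
  set K : ℝ := 8 * Real.pi / 3 + CG + 64 / 3 * CH with hK
  have hK0 : 0 < K := by
    have h1 := CG_nonneg
    have h2 := CH_nonneg
    have h3 := Real.pi_pos
    positivity
  obtain ⟨n, hn⟩ := exists_nat_ge (174 * K)
  have h20 : (16 : ℝ) ≤ 20 * 4 ^ n := by
    have : (1 : ℝ) ≤ 4 ^ n := one_le_pow₀ (by norm_num)
    linarith
  refine ⟨20 * 4 ^ n, h20, fun S T hS h4 => ?_⟩
  have h16 : 16 ≤ ‖S‖ := h20.trans hS
  have h1 := integral_im_le h16 h4
  have h2 := integral_re_ge n hS h4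
  rw [integral_neg, ← MM_re h16 h4] at h2
  rw [← MM_im h16 h4] at h1
  constructor <;> linarith

end Pool.Agent.H840.KO
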