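import Pool.Agent.H840.KO.Inv
import Pool.Agent.H840.KO.Pos
set_option autoImplicit false

/-!
The curves of genus two and their regulators.
-/

namespace Pool.Agent.H840.KO

open Polynomial MeasureTheory Filter

open scoped ComplexConjugate

theorem irreducible_of_simple {P : ℂ[X]} {a : ℂ} (hs : Simple P a) : Irreducible (defPoly P) := by
  obtain ⟨Q, hQ, hQa⟩ := hs
  unfold defPoly
  refine X_pow_sub_C_irreducible_of_prime Nat.prime_two fun b hb => ?_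
  have hQ0 : Q ≠ 0 := by
    rintro rfl
    simp at hQa
  have hP0 : P ≠ 0 := by
    rw [hQ]
    exact mul_ne_zero (X_sub_C_ne_zero a) hQ0
  have hb0 : b ≠ 0 := by
    rintro rfl
    rw [zero_pow two_ne_zero] at hb
    exact hP0 ((map_eq_zero_iff _ (RatFunc.algebraMap_injective ℂ)).1 hb.symm)
  have h1 : b.num ^ 2 = P * b.denom ^ 2 := by
    apply RatFunc.algebraMap_injective ℂ
    rw [map_pow, map_mul, map_pow, ← hb]
    have h2 : algebraMap ℂ[X] (RatFunc ℂ) b.denom ≠ 0 :=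
      RatFunc.algebraMap_ne_zero b.denom_ne_zero
    have h3 := RatFunc.num_div_denom b
    rw [div_eq_iff h2] at h3
    rw [h3]
    ring
  have h2 := congrArg (rootMultiplicity a) h1
  have hn := RatFunc.num_ne_zero hb0
  have hd := b.denom_ne_zero
  rw [pow_two, pow_two, hQ, rootMultiplicity_mul (mul_ne_zero hn hn),
    rootMultiplicity_mul (mul_ne_zero (mul_ne_zero (X_sub_C_ne_zero a) hQ0) (mul_ne_zero hd hd)),
    rootMultiplicity_mul (mul_ne_zero (X_sub_C_ne_zero a) hQ0),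
    rootMultiplicity_mul (mul_ne_zero hd hd), rootMultiplicity_X_sub_C_self,
    rootMultiplicity_eq_zero (p := Q) (by rw [IsRoot]; exact hQa)] at h2
  omega

/-- The parameters of the curve. -/
structure Dat (l₁ l₂ A u w t p q : ℂ) : Prop where
  hpq : (p = A + l₁ ∧ q = A + 1) ∨ (p = A + 1 ∧ q = A + l₁)
  h1 : w = -u * p
  h2 : w = (1 - u) * q
  h3 : l₂ * w = (1 - l₂ * u) * A
  ht : t ^ 2 = u * (1 - u) * (1 - l₂ * u)
  hl₁ : l₁ ≠ 0
  hA : A ≠ 0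
  hw : w ≠ 0
  ht0 : t ≠ 0

/-- the polynomial `(z ^ 2 - A) (z ^ 2 - (A + l)) (z ^ 2 - (A + 1))` -/
noncomputable def PP (A l : ℂ) : ℂ[X] := (X ^ 2 - C A) * ((X ^ 2 - C (A + l)) * (X ^ 2 - C (A + 1)))

theorem PP_eval (A l z : ℂ) :
    (PP A l).eval z = (z ^ 2 - A) * ((z ^ 2 - (A + l)) * (z ^ 2 - (A + 1))) := by
  unfold PP
  simp only [eval_mul, eval_sub, eval_pow, eval_X, eval_C]

theorem ngp_C (c : ℂ) : ngp (C c) = C c := by
  have := ngp.commutes c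
  rwa [Polynomial.algebraMap_eq] at this

theorem ngp_X : ngp X = -X := by simp [ngp]

theorem ngp_PP (A l : ℂ) : ngp (PP A l) = PP A l := by
  unfold PP
  simp only [map_mul, map_sub, map_pow, ngp_C, ngp_X]
  ring

theorem simple_PP {A l a : ℂ} (hl : l ≠ 0) (ha : a ^ 2 = A) (hA : A ≠ 0) : Simple (PP A l) a := by
  refine ⟨(X + C a) * ((X ^ 2 - C (A + l)) * (X ^ 2 - C (A + 1))), ?_, ?_⟩
  · unfold PP
    rw [← ha, map_pow]
    ring
  · simp only [eval_mul, eval_sub, eval_pow, eval_X, eval_C, eval_add]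
    have ha0 : a ≠ 0 := by
      rintro rfl
      exact hA (by rw [← ha]; ring)
    rw [ha]
    refine mul_ne_zero ?_ (mul_ne_zero ?_ ?_)
    · rw [← two_mul]
      exact mul_ne_zero two_ne_zero ha0
    · rw [sub_add_cancel_left]
      exact neg_ne_zero.2 hl
    · rw [sub_add_cancel_left]
      exact neg_ne_zero.2 one_ne_zero

theorem alg_PP (A l : ℂ) : algebraMap ℂ[X] (RatFunc ℂ) (PP A l) =
    (RatFunc.X ^ 2 - RatFunc.C A) * ((RatFunc.X ^ 2 - (RatFunc.C A + RatFunc.C l)) *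
      (RatFunc.X ^ 2 - (RatFunc.C A + 1))) := by
  unfold PP
  simp only [map_mul, map_sub, map_pow, map_add, RatFunc.algebraMap_C, RatFunc.algebraMap_X, map_one]

/-- first coordinate -/
noncomputable def bx1 (A l : ℂ) : RatFunc ℂ := RatFunc.C l⁻¹ * (RatFunc.X ^ 2 - RatFunc.C A)

theorem bx1_ev (A l : ℂ) : ∀ᶠ z in cofinite, ev (bx1 A l) z = l⁻¹ * (z ^ 2 - A) := by
  unfold bx1
  filter_upwards [ev_mul (RatFunc.C l⁻¹) (RatFunc.X ^ 2 - RatFunc.C A),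
    ev_sub (RatFunc.X ^ 2) (RatFunc.C A), ev_pow RatFunc.X 2] with z a1 a2 a3
  rw [a1, a2, a3, ev_C, ev_C, ev_X]

theorem bx1_deriv (A l : ℂ) : ∀ᶠ z in cofinite, deriv (ev (bx1 A l)) z = l⁻¹ * (2 * z) := by
  filter_upwards [deriv_congr (bx1_ev A l)] with z a1
  rw [a1]
  have h : HasDerivAt (fun z : ℂ => l⁻¹ * (z ^ 2 - A)) (l⁻¹ * (2 * z)) z := by
    have := ((hasDerivAt_pow 2 z).sub_const A).const_mul l⁻¹
    simpa using this
  exact h.deriv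

theorem Dat.pt1 {l₁ A : ℂ} (hl : l₁ ≠ 0) : Pt (PP A l₁) l₁ (bx1 A l₁) (RatFunc.C l₁⁻¹) := by
  constructor
  · rw [alg_PP]
    unfold bx1
    have hl' : (RatFunc.C l₁ : RatFunc ℂ) ≠ 0 := by rwa [Ne, map_eq_zero]
    rw [map_inv₀]
    field_simp
    ring
  · have h0 : ∀ᶠ z : ℂ in cofinite, z ≠ 0 := by
      rw [Filter.eventually_cofinite]
      simp
    filter_upwards [bx1_deriv A l₁, h0] with z a1 a2
    rw [a1]
    exact mul_ne_zero (inv_ne_zero hl) (mul_ne_zero two_ne_zero a2)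

/-- second coordinate -/
noncomputable def bx2 (u w : ℂ) : RatFunc ℂ := RatFunc.C u + RatFunc.C w / RatFunc.X ^ 2

noncomputable def bs2 (t : ℂ) : RatFunc ℂ := RatFunc.C t / RatFunc.X ^ 3

theorem bx2_ev (u w : ℂ) : ∀ᶠ z in cofinite, ev (bx2 u w) z = u + w / z ^ 2 := by
  unfold bx2
  filter_upwards [ev_add (RatFunc.C u) (RatFunc.C w / RatFunc.X ^ 2),
    ev_div (RatFunc.C w) (RatFunc.X ^ 2), ev_pow RatFunc.X 2] with z a1 a2 a3
  rw [a1, a2, a3, ev_C, ev_C, ev_X]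

theorem bs2_ev (t : ℂ) : ∀ᶠ z in cofinite, ev (bs2 t) z = t / z ^ 3 := by
  unfold bs2
  filter_upwards [ev_div (RatFunc.C t) (RatFunc.X ^ 3), ev_pow RatFunc.X 3] with z a2 a3
  rw [a2, a3, ev_C, ev_X]

theorem ne_zero_cofinite : ∀ᶠ z : ℂ in cofinite, z ≠ 0 := by
  rw [Filter.eventually_cofinite]
  simp

theorem bx2_deriv (u w : ℂ) : ∀ᶠ z in cofinite, deriv (ev (bx2 u w)) z = -2 * w / z ^ 3 := by
  filter_upwards [deriv_congr (bx2_ev u w), ne_zero_cofinite] with z a1 h0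
  rw [a1]
  have h : HasDerivAt (fun z : ℂ => u + w / z ^ 2) (-2 * w / z ^ 3) z := by
    have h1 : HasDerivAt (fun z : ℂ => z ^ 2) (2 * z) z := by
      simpa using hasDerivAt_pow 2 z
    have h2 := ((hasDerivAt_const z w).div h1 (pow_ne_zero 2 h0)).const_add u
    convert! h2 using 1
    field_simp
    ring
  exact h.deriv

theorem Dat.pt2 {l₁ l₂ A u w t p q : ℂ} (h : Dat l₁ l₂ A u w t p q) :
    Pt (PP A l₁) l₂ (bx2 u w) (bs2 t) := by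
  have key : ∀ {K : Type} [Field K] (z l₂ A u w t p q : K), z ≠ 0 → w = -u * p → w = (1 - u) * q →
      l₂ * w = (1 - l₂ * u) * A → t ^ 2 = u * (1 - u) * (1 - l₂ * u) →
      (t / z ^ 3) ^ 2 * ((z ^ 2 - A) * ((z ^ 2 - p) * (z ^ 2 - q))) =
        (u + w / z ^ 2) * (1 - (u + w / z ^ 2)) * (1 - l₂ * (u + w / z ^ 2)) := by
    intro K _ z l₂ A u w t p q hz e1 e2 e3 e4
    have f1 : u + w / z ^ 2 = u * (z ^ 2 - p) / z ^ 2 := by
      rw [e1]; field_simp; ring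
    have f2 : 1 - (u + w / z ^ 2) = (1 - u) * (z ^ 2 - q) / z ^ 2 := by
      rw [e2]; field_simp; ring
    have f3 : 1 - l₂ * (u + w / z ^ 2) = (1 - l₂ * u) * (z ^ 2 - A) / z ^ 2 := by
      have : l₂ * (u + w / z ^ 2) = l₂ * u + (l₂ * w) / z ^ 2 := by ring
      rw [this, e3]; field_simp; ring
    rw [f2, f3, f1, div_pow, e4]
    field_simp
  constructor
  · rw [alg_PP]
    unfold bx2 bs2
    have c1 := congrArg (RatFunc.C (K := ℂ)) h.h1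
    have c2 := congrArg (RatFunc.C (K := ℂ)) h.h2
    have c3 := congrArg (RatFunc.C (K := ℂ)) h.h3
    have c4 := congrArg (RatFunc.C (K := ℂ)) h.ht
    simp only [map_mul, map_neg, map_sub, map_one, map_pow] at c1 c2 c3 c4
    have k := key (RatFunc.X : RatFunc ℂ) (RatFunc.C l₂) (RatFunc.C A) (RatFunc.C u) (RatFunc.C w)
      (RatFunc.C t) (RatFunc.C p) (RatFunc.C q) RatFunc.X_ne_zero c1 c2 c3 c4
    rw [← k]
    rcases h.hpq with ⟨hp, hq⟩ | ⟨hp, hq⟩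
    · rw [hp, hq, map_add, map_add, map_one]
    · rw [hp, hq, map_add, map_add, map_one]
      ring
  · filter_upwards [bx2_deriv u w, ne_zero_cofinite] with z a1 h0
    rw [a1]
    exact div_ne_zero (mul_ne_zero (by norm_num) h.hw) (pow_ne_zero 3 h0)

theorem ng_bx1 (A l : ℂ) : ng (bx1 A l) = bx1 A l := by
  unfold bx1
  simp only [map_mul, map_sub, map_pow, ng_C, ng_X]
  ring

theorem ng_bx2 (u w : ℂ) : ng (bx2 u w) = bx2 u w := by
  unfold bx2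
  simp only [map_add, map_div₀, map_pow, ng_C, ng_X]
  rw [neg_sq]

theorem ng_bs2 (t : ℂ) : ng (bs2 t) = -bs2 t := by
  unfold bs2
  simp only [map_div₀, map_pow, ng_C, ng_X]
  rw [show (-RatFunc.X : RatFunc ℂ) ^ 3 = -(RatFunc.X ^ 3) by ring]
  exact div_neg _

/-- the integral over the `z` plane -/
noncomputable def JJ (A l a : ℂ) : ℂ :=
  ∫ z : ℂ, ((Real.log (‖z - a‖ / ‖z + a‖) / ‖(PP A l).eval z‖ : ℝ) : ℂ) * z

theorem JJ_eq {A l a : ℂ} (ha : a ^ 2 = A) (hA : A ≠ 0) (h1 : A + l ≠ 0) (h2 : A + 1 ≠ 0) :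
    ∃ c : ℝ, 0 < c ∧ JJ A l a = c * a * MM ((A + l) / A) ((A + 1) / A) := by
  have ha0 : a ≠ 0 := by
    rintro rfl
    exact hA (by rw [← ha]; ring)
  have hn : 0 < ‖a‖ := norm_pos_iff.2 ha0
  have hnA : 0 < ‖A‖ := norm_pos_iff.2 hA
  have hs : 0 < ‖(A + l) / A‖ := norm_pos_iff.2 (div_ne_zero h1 hA)
  have ht : 0 < ‖(A + 1) / A‖ := norm_pos_iff.2 (div_ne_zero h2 hA)
  have e1 := integral_comp_mul
    (fun z : ℂ => ((Real.log (‖z - a‖ / ‖z + a‖) / ‖(PP A l).eval z‖ : ℝ) : ℂ) * z) ha0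
  have e2 : ∀ x : ℂ, ((Real.log (‖a * x - a‖ / ‖a * x + a‖) / ‖(PP A l).eval (a * x)‖ : ℝ) : ℂ) *
      (a * x) = (((‖A‖ ^ 3)⁻¹ * (‖(A + l) / A‖ * ‖(A + 1) / A‖)⁻¹ : ℝ) : ℂ) * a *
        (((F ((A + l) / A) ((A + 1) / A) x : ℝ) : ℂ) * x) := by
    intro x
    have f1 : ‖a * x - a‖ / ‖a * x + a‖ = ‖x - 1‖ / ‖x + 1‖ := by
      rw [show a * x - a = a * (x - 1) by ring, show a * x + a = a * (x + 1) by ring, norm_mul,
        norm_mul, mul_div_mul_left _ _ hn.ne']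
    have f2 : ‖(PP A l).eval (a * x)‖ = ‖A‖ ^ 3 * (‖x ^ 2 - 1‖ *
        (‖x ^ 2 - (A + l) / A‖ * ‖x ^ 2 - (A + 1) / A‖)) := by
      rw [PP_eval, ← norm_pow, ← norm_mul, ← norm_mul, ← norm_mul]
      congr 1
      rw [mul_pow, ha]
      field_simp
    rw [f1, f2]
    unfold F Lam wt
    rw [mul_inv]
    push_cast
    generalize hL : ((Real.log (‖x - 1‖ / ‖x + 1‖) : ℝ) : ℂ) = L
    have g1 : (‖A‖ : ℂ) ≠ 0 := by exact_mod_cast hnA.ne'
    have g2 : (‖(A + l) / A‖ : ℂ) ≠ 0 := by exact_mod_cast hs.ne'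
    have g3 : (‖(A + 1) / A‖ : ℂ) ≠ 0 := by exact_mod_cast ht.ne'
    set X1 : ℂ := (‖x ^ 2 - 1‖ : ℂ)
    set X2 : ℂ := (‖x ^ 2 - (A + l) / A‖ : ℂ)
    set X3 : ℂ := (‖x ^ 2 - (A + 1) / A‖ : ℂ)
    set Y2 : ℂ := (‖(A + l) / A‖ : ℂ)
    set Y3 : ℂ := (‖(A + 1) / A‖ : ℂ)
    rw [mul_inv, div_eq_mul_inv, div_eq_mul_inv, mul_inv, mul_inv, mul_inv]
    have k2 : Y2⁻¹ * Y2 = 1 := inv_mul_cancel₀ g2
    have k3 : Y3⁻¹ * Y3 = 1 := inv_mul_cancel₀ g3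
    linear_combination (-(L * ((‖A‖ : ℂ) ^ 3)⁻¹ * X1⁻¹ * X2⁻¹ * X3⁻¹ * a * x) * (Y3⁻¹ * Y3)) * k2 -
      (L * ((‖A‖ : ℂ) ^ 3)⁻¹ * X1⁻¹ * X2⁻¹ * X3⁻¹ * a * x) * k3
  have e3 : ∫ x : ℂ, ((Real.log (‖a * x - a‖ / ‖a * x + a‖) / ‖(PP A l).eval (a * x)‖ : ℝ) : ℂ) *
      (a * x) = (((‖A‖ ^ 3)⁻¹ * (‖(A + l) / A‖ * ‖(A + 1) / A‖)⁻¹ : ℝ) : ℂ) * a *
        MM ((A + l) / A) ((A + 1) / A) := by
    unfold MM
    rw [← integral_const_mul]
    exact integral_congr_ae (Eventually.of_forall e2)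
  refine ⟨‖a‖ ^ 2 * ((‖A‖ ^ 3)⁻¹ * (‖(A + l) / A‖ * ‖(A + 1) / A‖)⁻¹), by positivity, ?_⟩
  have e4 : JJ A l a = (‖a‖ ^ 2 : ℝ) • ∫ x : ℂ,
      ((Real.log (‖a * x - a‖ / ‖a * x + a‖) / ‖(PP A l).eval (a * x)‖ : ℝ) : ℂ) * (a * x) := by
    rw [e1, smul_smul, mul_inv_cancel₀ (by positivity), one_smul]
    rfl
  rw [e4, e3, Complex.real_smul]
  push_cast
  ring

end Pool.Agent.H840.KO
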