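import Mathlib
set_option autoImplicit false

/-!
Rational functions on hyperelliptic curves mapping to products of two elliptic curves, the
condition that they give a class in motivic cohomology, and the real regulator.
-/

namespace Pool.Agent.H840.KO

open Polynomial MeasureTheory

open scoped ComplexConjugate

/-- The value of a rational function at a point of `ℂ`. -/
noncomputable def ev (f : RatFunc ℂ) (z : ℂ) : ℂ := RatFunc.eval (RingHom.id ℂ) z f

/-- `V ^ 2 - P` as a polynomial in `V` over `ℂ(z)`. -/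
noncomputable def defPoly (P : ℂ[X]) : (RatFunc ℂ)[X] :=
  X ^ 2 - C (algebraMap ℂ[X] (RatFunc ℂ) P)

/-- The function field `ℂ(z)(v)` of the curve `v ^ 2 = P(z)`. -/
abbrev FF (P : ℂ[X]) : Type := AdjoinRoot (defPoly P)

/-- A rational function of `z` as an element of the function field of `v ^ 2 = P(z)`. -/
noncomputable def ofRat (P : ℂ[X]) (g : RatFunc ℂ) : FF P := AdjoinRoot.of (defPoly P) g

/-- The function `v` on the curve `v ^ 2 = P(z)`. -/
noncomputable def vee (P : ℂ[X]) : FF P := AdjoinRoot.root (defPoly P)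

/-- The points of the smooth projective model of `v ^ 2 = P(z)`: the discrete valuations of its
function field which are trivial on the constants. -/
structure Place (P : ℂ[X]) where
  w : Valuation (FF P) (WithZero (Multiplicative ℤ))
  triv : ∀ c : ℂ, c ≠ 0 → w (ofRat P (RatFunc.C c)) = 1
  surj : Function.Surjective w

/-- The order of vanishing at a point. -/
noncomputable def Place.ord {P : ℂ[X]} (p : Place P) (g : FF P) : ℤ := -WithZero.log (p.w g)

/-- `p.At x y q`: the map `(x, y)` from the curve to the elliptic curve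
`y ^ 2 = x * (1 - x) * (1 - l * x)` sends the point `p` to `q`.  Here `none` is the point at
infinity of the elliptic curve, and `some (a, b)` is the point with coordinates `a`, `b`. -/
def Place.At {P : ℂ[X]} (p : Place P) (x y : FF P) : Option (ℂ × ℂ) → Prop
  | none => 1 < p.w x
  | some (a, b) => p.w (x - ofRat P (RatFunc.C a)) < 1 ∧ p.w (y - ofRat P (RatFunc.C b)) < 1

/-- A map from the curve `v ^ 2 = P(z)` to `E₁ × E₂`, where `E_i` is
`y ^ 2 = x * (1 - x) * (1 - l_i * x)`, given by `x = x_i(z)`, `y = s_i(z) * v`,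
and a nonzero rational function `f(z)` on the curve. -/
structure Datum (l₁ l₂ : ℂ) where
  P : ℂ[X]
  irr : Irreducible (defPoly P)
  x₁ : RatFunc ℂ
  s₁ : RatFunc ℂ
  x₂ : RatFunc ℂ
  s₂ : RatFunc ℂ
  f : RatFunc ℂ
  f_ne : f ≠ 0
  eq₁ : s₁ ^ 2 * algebraMap ℂ[X] (RatFunc ℂ) P = x₁ * (1 - x₁) * (1 - RatFunc.C l₁ * x₁)
  eq₂ : s₂ ^ 2 * algebraMap ℂ[X] (RatFunc ℂ) P = x₂ * (1 - x₂) * (1 - RatFunc.C l₂ * x₂)

namespace Datum

variable {l₁ l₂ : ℂ} (D : Datum l₁ l₂)

/-- The point `p` of the curve is sent to `(q₁, q₂)`. -/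
def Over (p : Place D.P) (q₁ q₂ : Option (ℂ × ℂ)) : Prop :=
  p.At (ofRat D.P D.x₁) (ofRat D.P D.s₁ * vee D.P) q₁ ∧
    p.At (ofRat D.P D.x₂) (ofRat D.P D.s₂ * vee D.P) q₂

/-- The image in `E₁ × E₂` of the divisor of `f` is zero, so that the image of the curve together
with `f` is a class in the motivic cohomology `H ^ 3 (E₁ × E₂, ℚ(2))`. -/
def IsK1 : Prop :=
  {p : Place D.P | p.ord (ofRat D.P D.f) ≠ 0}.Finite ∧
    ∀ q₁ q₂ : Option (ℂ × ℂ), ∑ᶠ (p : Place D.P) (_ : D.Over p q₁ q₂), p.ord (ofRat D.P D.f) = 0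

/-- The integral of `log |f| ω₁ ∧ conj ω₂` over the curve, where `ω_i` is the pullback of the
differential form `dx / y` of `E_i`, divided by `-2 i`. -/
noncomputable def reg : ℂ :=
  ∫ z : ℂ, ((2 * Real.log ‖ev D.f z‖ / ‖D.P.eval z‖ : ℝ) : ℂ) *
    ((deriv (ev D.x₁) z / ev D.s₁ z) * conj (deriv (ev D.x₂) z / ev D.s₂ z))

end Datum

end Pool.Agent.H840.KO
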