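import Pool.Agent.H840.KO.Main
set_option autoImplicit false

/-!
The real regulator on `K_1` of the product of any two complex elliptic curves has dense image in
the `(1, 1)` part of `H ^ 1 ⊗ H ^ 1`.
-/

namespace Pool.Agent.H840.KO.EllipticProductsOld

open Pool.Agent.H840.KO

theorem result (l₁ l₂ : ℂ) (h₁ : l₁ ≠ 0) (h₁' : l₁ ≠ 1) (h₂ : l₂ ≠ 0) (h₂' : l₂ ≠ 1) :
    (∃ D D' : Datum l₁ l₂, D.IsK1 ∧ D'.IsK1 ∧ LinearIndependent ℝ ![D.reg, D'.reg]) ∧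
    Dense (Submodule.span ℚ {r : ℂ | ∃ D : Datum l₁ l₂, D.IsK1 ∧ D.reg = r} : Set ℂ) := by
  obtain ⟨D, D', h, h', hi⟩ := main h₁ h₁' h₂ h₂'
  exact ⟨⟨D, D', h, h', hi⟩, dense_of_indep hi ⟨D, h, rfl⟩ ⟨D', h', rfl⟩⟩

end Pool.Agent.H840.KO.EllipticProductsOld
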