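import Pool.Agent.H840.KO.Scale
set_option autoImplicit false

/-!
The estimate of the integral of `Lam x * x / (|x ^ 2 - 1| |x ^ 2 - S| |x ^ 2 - T|)` when
`1 ≪ |S| ≪ |T|`.
-/

namespace Pool.Agent.H840.KO

open MeasureTheory Set Metric

noncomputable def wt (S T x : ℂ) : ℝ := ‖S‖ * ‖T‖ * (‖x ^ 2 - S‖ * ‖x ^ 2 - T‖)⁻¹

noncomputable def F (S T x : ℂ) : ℝ := Lam x / ‖x ^ 2 - 1‖ * wt S T x

theorem wt_nonneg (S T x : ℂ) : 0 ≤ wt S T x := by
  unfold wt; positivity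

theorem measurable_wt (S T : ℂ) : Measurable (wt S T) := by
  unfold wt
  fun_prop

theorem measurable_F (S T : ℂ) : Measurable (F S T) := by
  unfold F
  have := measurable_wt S T
  have := measurable_Lam
  fun_prop

theorem wt_le {S T : ℂ} (hS : 0 < ‖S‖) (h4 : 4 * ‖S‖ ≤ ‖T‖) (x : ℂ) :
    wt S T x ≤ 4 / 3 * ‖S‖ * (‖x ^ 2 - S‖⁻¹ + ‖x ^ 2 - T‖⁻¹) := by
  unfold wt
  have hp := norm_nonneg (x ^ 2 - S)
  have hq := norm_nonneg (x ^ 2 - T)
  have h1 : 3 / 4 * ‖T‖ ≤ ‖x ^ 2 - S‖ + ‖x ^ 2 - T‖ := by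
    have h2 := norm_sub_le (x ^ 2 - S) (x ^ 2 - T)
    have h3 : x ^ 2 - S - (x ^ 2 - T) = T - S := by ring
    rw [h3] at h2
    have h5 := norm_sub_norm_le T S
    linarith
  set p := ‖x ^ 2 - S‖
  set q := ‖x ^ 2 - T‖
  rcases hp.eq_or_lt with h | hp0
  · rw [← h]
    simp only [zero_mul, inv_zero, mul_zero]
    positivity
  rcases hq.eq_or_lt with h | hq0
  · rw [← h]
    simp only [inv_zero, mul_zero]
    positivity
  rw [show p⁻¹ + q⁻¹ = (p + q) * (p * q)⁻¹ by field_simp; ring, ← mul_assoc]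
  apply mul_le_mul_of_nonneg_right _ (by positivity)
  nlinarith

theorem abs_F_mul_le (S T x : ℂ) : |F S T x| * ‖x‖ = G x * wt S T x := by
  unfold F G
  rw [abs_mul, abs_div, abs_of_nonneg (wt_nonneg S T x), abs_of_nonneg (norm_nonneg (x ^ 2 - 1))]
  ring

theorem G_wt_far {S T x : ℂ} (h16 : 16 ≤ ‖S‖) (h4 : 4 * ‖S‖ ≤ ‖T‖)
    (hx : Real.sqrt ‖S‖ / 2 ≤ ‖x‖) :
    G x * wt S T x ≤ 128 / 9 * Real.sqrt ‖S‖ * (hS S x + hS T x) := by
  have hs : (4 : ℝ) ≤ Real.sqrt ‖S‖ := by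
    rw [show (4 : ℝ) = Real.sqrt 16 by
      rw [show (16 : ℝ) = 4 ^ 2 by norm_num, Real.sqrt_sq (by norm_num)]]
    exact Real.sqrt_le_sqrt h16
  have hss : ‖S‖ = Real.sqrt ‖S‖ * Real.sqrt ‖S‖ := (Real.mul_self_sqrt (norm_nonneg _)).symm
  have h1 := G_far (x := x) (by linarith)
  have h2 := wt_le (by linarith) h4 x
  have hx0 : 0 < ‖x‖ := by linarith
  calc G x * wt S T x ≤ (16 / 3 / ‖x‖ ^ 2) * (4 / 3 * ‖S‖ * (‖x ^ 2 - S‖⁻¹ + ‖x ^ 2 - T‖⁻¹)) := by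
        apply mul_le_mul h1 h2 (wt_nonneg _ _ _) (by positivity)
    _ = (64 / 9 * ‖S‖ / ‖x‖) * (hS S x + hS T x) := by
        unfold hS
        field_simp
        ring
    _ ≤ 128 / 9 * Real.sqrt ‖S‖ * (hS S x + hS T x) := by
        apply mul_le_mul_of_nonneg_right _
          (add_nonneg (hS_nonneg S x) (hS_nonneg T x))
        rw [div_le_iff₀ hx0]
        calc 64 / 9 * ‖S‖ = 64 / 9 * (Real.sqrt ‖S‖ * Real.sqrt ‖S‖) := by rw [← hss]
          _ ≤ _ := by nlinarith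

theorem aux_up {s t e P : ℝ} (hs : 0 < s) (he : 0 ≤ e) (hes : e ≤ s / 4) (ht : 4 * s ≤ t)
    (hP : (s - e) * (t - e) ≤ P) : s * t * s ≤ (2 * e + s) * P := by
  have h1 : (2 * e + s) * ((s - e) * (t - e)) ≤ (2 * e + s) * P :=
    mul_le_mul_of_nonneg_left hP (by linarith)
  refine le_trans ?_ h1
  have h2 : 0 ≤ t * (s - 2 * e) - s * s - s * e + 2 * (e * e) := by
    have h3 : 4 * s * (s - 2 * e) ≤ t * (s - 2 * e) :=
      mul_le_mul_of_nonneg_right ht (by linarith)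
    nlinarith [mul_nonneg hs.le he, mul_self_nonneg e, mul_self_nonneg s,
      mul_nonneg hs.le (by linarith : (0 : ℝ) ≤ s / 4 - e)]
  nlinarith [mul_nonneg he h2]

theorem aux_lo {s t e P : ℝ} (hs : 0 < s) (he : 0 ≤ e) (hes : e ≤ s / 4) (ht : 4 * s ≤ t)
    (hP : P ≤ (e + s) * (e + t)) : (s - 2 * e) * P ≤ s * t * s := by
  have h1 : (s - 2 * e) * P ≤ (s - 2 * e) * ((e + s) * (e + t)) :=
    mul_le_mul_of_nonneg_left hP (by linarith)
  refine le_trans h1 ?_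
  have h2 : 0 ≤ s * t + 2 * (e * t) - s * s + s * e + 2 * (e * e) := by
    have h3 : 4 * s * s ≤ t * s := mul_le_mul_of_nonneg_right ht hs.le
    nlinarith [mul_nonneg hs.le he, mul_self_nonneg e, mul_self_nonneg s,
      mul_nonneg he (by linarith : (0 : ℝ) ≤ t)]
  nlinarith [mul_nonneg he h2]

theorem wt_sub_one {S T x : ℂ} (hS : 0 < ‖S‖) (h4 : 4 * ‖S‖ ≤ ‖T‖)
    (hx : ‖x‖ ^ 2 ≤ ‖S‖ / 4) :
    |wt S T x - 1| ≤ 2 * ‖x‖ ^ 2 / ‖S‖ := by
  have hT : 0 < ‖T‖ := by linarith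
  have a1 := norm_sub_norm_le S (x ^ 2)
  have a2 := norm_sub_norm_le T (x ^ 2)
  have b1 := norm_sub_le (x ^ 2) S
  have b2 := norm_sub_le (x ^ 2) T
  rw [norm_sub_rev S] at a1
  rw [norm_sub_rev T] at a2
  rw [norm_pow] at a1 a2 b1 b2
  unfold wt
  have he0 : 0 ≤ ‖x‖ ^ 2 := by positivity
  set p := ‖x ^ 2 - S‖
  set q := ‖x ^ 2 - T‖
  set e := ‖x‖ ^ 2
  set s := ‖S‖
  set t := ‖T‖
  have hp0 : 0 < p := by linarith
  have hq0 : 0 < q := by linarith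
  have hpq : 0 < p * q := mul_pos hp0 hq0
  -- bounds
  have u1 : (s - e) * (t - e) ≤ p * q :=
    mul_le_mul a1 a2 (by linarith) (by linarith)
  have u2 : p * q ≤ (e + s) * (e + t) :=
    mul_le_mul b1 b2 (by linarith) (by linarith)
  have v1 := aux_up hS he0 hx h4 u1
  have v2 := aux_lo hS he0 hx h4 u2
  rw [← div_eq_mul_inv, abs_le]
  constructor
  · have h1 : 1 - 2 * e / s ≤ s * t / (p * q) := by
      rw [le_div_iff₀ hpq, show 1 - 2 * e / s = (s - 2 * e) / s by field_simp,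
        div_mul_eq_mul_div, div_le_iff₀ hS]
      exact v2
    linarith
  · have h1 : s * t / (p * q) ≤ 2 * e / s + 1 := by
      rw [div_le_iff₀ hpq, div_add_one hS.ne', div_mul_eq_mul_div, le_div_iff₀ hS]
      exact v1
    linarith

theorem sqrt_ge_four {S : ℂ} (h16 : 16 ≤ ‖S‖) : (4 : ℝ) ≤ Real.sqrt ‖S‖ := by
  rw [show (4 : ℝ) = Real.sqrt 16 by
    rw [show (16 : ℝ) = 4 ^ 2 by norm_num, Real.sqrt_sq (by norm_num)]]
  exact Real.sqrt_le_sqrt h16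

theorem mem_ball_sq {S x : ℂ} (hx : x ∈ ball (0 : ℂ) (Real.sqrt ‖S‖ / 2)) :
    ‖x‖ ^ 2 ≤ ‖S‖ / 4 := by
  have h1 : ‖x‖ < Real.sqrt ‖S‖ / 2 := by simpa using hx
  have h2 := norm_nonneg x
  have hss : Real.sqrt ‖S‖ * Real.sqrt ‖S‖ = ‖S‖ := Real.mul_self_sqrt (norm_nonneg _)
  nlinarith

theorem wt_le_two {S T x : ℂ} (hS : 0 < ‖S‖) (h4 : 4 * ‖S‖ ≤ ‖T‖)
    (hx : ‖x‖ ^ 2 ≤ ‖S‖ / 4) : wt S T x ≤ 2 := by
  have h1 := (abs_le.1 (wt_sub_one hS h4 hx)).2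
  have h2 : 2 * ‖x‖ ^ 2 / ‖S‖ ≤ 1 := by
    rw [div_le_one hS]; linarith
  linarith

theorem wt_ge_half {S T x : ℂ} (hS : 0 < ‖S‖) (h4 : 4 * ‖S‖ ≤ ‖T‖)
    (hx : ‖x‖ ^ 2 ≤ ‖S‖ / 4) : 1 / 2 ≤ wt S T x := by
  have h1 := (abs_le.1 (wt_sub_one hS h4 hx)).1
  have h2 : 2 * ‖x‖ ^ 2 / ‖S‖ ≤ 1 / 2 := by
    rw [div_le_iff₀ hS]; linarith
  linarith

theorem measurable_G_wt (S T : ℂ) : Measurable fun x => G x * wt S T x :=
  measurable_G.mul (measurable_wt S T)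

theorem G_wt_nonneg (S T x : ℂ) : 0 ≤ G x * wt S T x :=
  mul_nonneg (G_nonneg x) (wt_nonneg S T x)

theorem integrable_hST {S T : ℂ} (h16 : 16 ≤ ‖S‖) (h4 : 4 * ‖S‖ ≤ ‖T‖) :
    Integrable fun x => 128 / 9 * Real.sqrt ‖S‖ * (hS S x + hS T x) := by
  have hS0 : S ≠ 0 := by rintro rfl; simp at h16; linarith
  have hT0 : T ≠ 0 := by
    rintro rfl
    have := norm_nonneg S
    rw [norm_zero] at h4
    linarith
  exact ((integrable_hS hS0).add (integrable_hS hT0)).const_mul _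

theorem integral_hST {S T : ℂ} (h16 : 16 ≤ ‖S‖) (h4 : 4 * ‖S‖ ≤ ‖T‖) :
    ∫ x, 128 / 9 * Real.sqrt ‖S‖ * (hS S x + hS T x) ≤ 64 / 3 * CH := by
  have hS0 : S ≠ 0 := by rintro rfl; simp at h16; linarith
  have hT0 : T ≠ 0 := by
    rintro rfl
    have := norm_nonneg S
    rw [norm_zero] at h4
    linarith
  rw [integral_const_mul, integral_add (integrable_hS hS0) (integrable_hS hT0), integral_hS hS0,
    integral_hS hT0]
  have hs := sqrt_ge_four h16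
  have ht : 2 * Real.sqrt ‖S‖ ≤ Real.sqrt ‖T‖ := by
    rw [show (2 : ℝ) = Real.sqrt 4 by
      rw [show (4 : ℝ) = 2 ^ 2 by norm_num, Real.sqrt_sq (by norm_num)],
      ← Real.sqrt_mul (by norm_num)]
    exact Real.sqrt_le_sqrt h4
  have hC := CH_nonneg
  set s := Real.sqrt ‖S‖
  set t := Real.sqrt ‖T‖
  have hs0 : 0 < s := by linarith
  have ht0 : 0 < t := by linarith
  have h1 : 128 / 9 * s * (s⁻¹ * CH + t⁻¹ * CH) = 128 / 9 * CH * (1 + s / t) := by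
    field_simp
  rw [h1]
  have h2 : s / t ≤ 1 / 2 := by
    rw [div_le_iff₀ ht0]; linarith
  nlinarith

theorem integrable_G_wt {S T : ℂ} (h16 : 16 ≤ ‖S‖) (h4 : 4 * ‖S‖ ≤ ‖T‖) :
    Integrable fun x => G x * wt S T x := by
  have h1 : IntegrableOn (fun x => G x * wt S T x) (ball 0 (Real.sqrt ‖S‖ / 2)) := by
    refine Integrable.mono' ((integrableOn_G (Real.sqrt ‖S‖ / 2)).mul_const 2)
      (measurable_G_wt S T).aestronglyMeasurable.restrict ?_
    refine (ae_restrict_iff' measurableSet_ball).2 (Filter.Eventually.of_forall fun x hx => ?_)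
    rw [Real.norm_of_nonneg (G_wt_nonneg S T x)]
    exact mul_le_mul_of_nonneg_left (wt_le_two (by linarith) h4 (mem_ball_sq hx)) (G_nonneg x)
  have h2 : IntegrableOn (fun x => G x * wt S T x) (ball 0 (Real.sqrt ‖S‖ / 2))ᶜ := by
    refine Integrable.mono' (integrable_hST h16 h4).integrableOn
      (measurable_G_wt S T).aestronglyMeasurable.restrict ?_
    refine (ae_restrict_iff' measurableSet_ball.compl).2
      (Filter.Eventually.of_forall fun x hx => ?_)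
    rw [Real.norm_of_nonneg (G_wt_nonneg S T x)]
    refine G_wt_far h16 h4 ?_
    simpa using hx
  have := h1.union h2
  rwa [union_compl_self, integrableOn_univ] at this

theorem integral_G_wt_far {S T : ℂ} (h16 : 16 ≤ ‖S‖) (h4 : 4 * ‖S‖ ≤ ‖T‖) :
    ∫ x in (ball 0 (Real.sqrt ‖S‖ / 2))ᶜ, G x * wt S T x ≤ 64 / 3 * CH := by
  refine le_trans ?_ (integral_hST h16 h4)
  refine le_trans (setIntegral_mono_on (integrable_G_wt h16 h4).integrableOn
    (integrable_hST h16 h4).integrableOn measurableSet_ball.compl fun x hx => ?_)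
    (setIntegral_le_integral (integrable_hST h16 h4) (Filter.Eventually.of_forall fun x => ?_))
  · refine G_wt_far h16 h4 ?_
    simpa using hx
  · have h1 := hS_nonneg S x
    have h2 := hS_nonneg T x
    change 0 ≤ 128 / 9 * Real.sqrt ‖S‖ * (hS S x + hS T x)
    positivity

theorem integrable_F_im {S T : ℂ} (h16 : 16 ≤ ‖S‖) (h4 : 4 * ‖S‖ ≤ ‖T‖) :
    Integrable fun x => F S T x * x.im := by
  refine Integrable.mono' (integrable_G_wt h16 h4)
    ((measurable_F S T).mul Complex.measurable_im).aestronglyMeasurable ?_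
  refine Filter.Eventually.of_forall fun x => ?_
  rw [← abs_F_mul_le, norm_mul]
  exact mul_le_mul_of_nonneg_left (Complex.abs_im_le_norm x) (norm_nonneg _)

theorem integrable_F_re {S T : ℂ} (h16 : 16 ≤ ‖S‖) (h4 : 4 * ‖S‖ ≤ ‖T‖) :
    Integrable fun x => F S T x * x.re := by
  refine Integrable.mono' (integrable_G_wt h16 h4)
    ((measurable_F S T).mul Complex.measurable_re).aestronglyMeasurable ?_
  refine Filter.Eventually.of_forall fun x => ?_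
  rw [← abs_F_mul_le, norm_mul]
  exact mul_le_mul_of_nonneg_left (Complex.abs_re_le_norm x) (norm_nonneg _)

theorem integrableOn_odd (R : ℝ) :
    IntegrableOn (fun x => Lam x * x.im / ‖x ^ 2 - 1‖) (ball (0 : ℂ) R) := by
  refine Integrable.mono' (integrableOn_G R) ?_ (Filter.Eventually.of_forall fun x => ?_)
  · have := measurable_Lam
    exact (by fun_prop : Measurable fun x => Lam x * x.im / ‖x ^ 2 - 1‖).aestronglyMeasurable.restrict
  · unfold G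
    rw [norm_div, norm_mul, norm_norm]
    apply div_le_div_of_nonneg_right _ (norm_nonneg _)
    exact mul_le_mul_of_nonneg_left (Complex.abs_im_le_norm x) (norm_nonneg _)

theorem integral_near {S T : ℂ} (h16 : 16 ≤ ‖S‖) (h4 : 4 * ‖S‖ ≤ ‖T‖) :
    |∫ x in ball 0 (Real.sqrt ‖S‖ / 2), F S T x * x.im| ≤ 8 * Real.pi / 3 + CG := by
  have hSp : 0 < ‖S‖ := by linarith
  have hs := sqrt_ge_four h16
  have h1 : ∫ x in ball 0 (Real.sqrt ‖S‖ / 2), F S T x * x.im =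
      ∫ x in ball 0 (Real.sqrt ‖S‖ / 2), (F S T x * x.im - Lam x * x.im / ‖x ^ 2 - 1‖) := by
    rw [integral_sub (integrable_F_im h16 h4).integrableOn (integrableOn_odd _), integral_odd,
      sub_zero]
  have h2 : |∫ x in ball 0 (Real.sqrt ‖S‖ / 2), (F S T x * x.im - Lam x * x.im / ‖x ^ 2 - 1‖)| ≤
      ∫ x in ball 0 (Real.sqrt ‖S‖ / 2), 2 / ‖S‖ * (G x * ‖x‖ ^ 2) := by
    rw [← Real.norm_eq_abs]
    refine norm_integral_le_of_norm_le ((integrableOn_G_sq _).const_mul _) ?_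
    refine (ae_restrict_iff' measurableSet_ball).2 (Filter.Eventually.of_forall fun x hx => ?_)
    have h3 : F S T x * x.im - Lam x * x.im / ‖x ^ 2 - 1‖ =
        (Lam x * x.im / ‖x ^ 2 - 1‖) * (wt S T x - 1) := by
      unfold F
      ring
    rw [h3, norm_mul]
    have h5 := wt_sub_one hSp h4 (mem_ball_sq hx)
    have h6 : ‖Lam x * x.im / ‖x ^ 2 - 1‖‖ ≤ G x := by
      unfold G
      rw [norm_div, norm_mul, norm_norm]
      apply div_le_div_of_nonneg_right _ (norm_nonneg _)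
      exact mul_le_mul_of_nonneg_left (Complex.abs_im_le_norm x) (norm_nonneg _)
    calc ‖Lam x * x.im / ‖x ^ 2 - 1‖‖ * ‖wt S T x - 1‖ ≤ G x * (2 * ‖x‖ ^ 2 / ‖S‖) :=
          mul_le_mul h6 h5 (norm_nonneg _) (G_nonneg x)
      _ = 2 / ‖S‖ * (G x * ‖x‖ ^ 2) := by ring
  rw [h1]
  refine h2.trans ?_
  rw [integral_const_mul]
  have h3 := integral_G_sq_le (R := Real.sqrt ‖S‖ / 2) (by linarith)
  have hss : Real.sqrt ‖S‖ ^ 2 = ‖S‖ := Real.sq_sqrt (norm_nonneg _)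
  rw [div_pow, hss] at h3
  have hC := CG_nonneg
  have h4 : 2 / ‖S‖ * ∫ x in ball (0 : ℂ) (Real.sqrt ‖S‖ / 2), G x * ‖x‖ ^ 2 ≤
      2 / ‖S‖ * (16 / 3 * Real.pi * (‖S‖ / 2 ^ 2) + CG) :=
    mul_le_mul_of_nonneg_left h3 (by positivity)
  refine h4.trans ?_
  have h5 : 2 / ‖S‖ * (16 / 3 * Real.pi * (‖S‖ / 2 ^ 2) + CG) = 8 * Real.pi / 3 + 2 / ‖S‖ * CG := by
    field_simp
    ring
  rw [h5]
  have h6 : 2 / ‖S‖ ≤ 1 := by
    rw [div_le_one hSp]; linarith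
  nlinarith

theorem integral_im_le {S T : ℂ} (h16 : 16 ≤ ‖S‖) (h4 : 4 * ‖S‖ ≤ ‖T‖) :
    |∫ x, F S T x * x.im| ≤ 8 * Real.pi / 3 + CG + 64 / 3 * CH := by
  have h1 := integral_add_compl (measurableSet_ball (x := (0 : ℂ)) (ε := Real.sqrt ‖S‖ / 2))
    (integrable_F_im h16 h4)
  rw [← h1]
  refine (abs_add_le _ _).trans (add_le_add (integral_near h16 h4) ?_)
  refine le_trans ?_ (integral_G_wt_far h16 h4)
  rw [← Real.norm_eq_abs]
  refine norm_integral_le_of_norm_le (integrable_G_wt h16 h4).integrableOn ?_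
  refine Filter.Eventually.of_forall fun x => ?_
  rw [← abs_F_mul_le, norm_mul]
  exact mul_le_mul_of_nonneg_left (Complex.abs_im_le_norm x) (norm_nonneg _)

end Pool.Agent.H840.KO
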