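import Pool.Agent.H840.KO.Defs
set_option autoImplicit false

/-!
Evaluation of rational functions outside of finite sets.
-/

namespace Pool.Agent.H840.KO

open Polynomial MeasureTheory Filter

theorem ev_num_denom (f : RatFunc ℂ) (z : ℂ) : ev f z = f.num.eval z / f.denom.eval z := by
  unfold ev RatFunc.eval
  rw [Polynomial.eval₂_id, Polynomial.eval₂_id]

theorem cofinite_eval_ne {p : ℂ[X]} (hp : p ≠ 0) : ∀ᶠ z : ℂ in cofinite, p.eval z ≠ 0 := by
  rw [Filter.eventually_cofinite]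
  simp only [not_not]
  exact Polynomial.finite_setOfPred_isRoot hp

theorem cofinite_denom (f : RatFunc ℂ) : ∀ᶠ z : ℂ in cofinite, f.denom.eval z ≠ 0 :=
  cofinite_eval_ne f.denom_ne_zero

theorem ev_add (f g : RatFunc ℂ) : ∀ᶠ z in cofinite, ev (f + g) z = ev f z + ev g z := by
  filter_upwards [cofinite_denom f, cofinite_denom g] with z hf hg
  unfold ev
  apply RatFunc.eval_add <;> simpa [Polynomial.eval₂_id] using ‹_›

theorem ev_mul (f g : RatFunc ℂ) : ∀ᶠ z in cofinite, ev (f * g) z = ev f z * ev g z := by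
  filter_upwards [cofinite_denom f, cofinite_denom g] with z hf hg
  unfold ev
  apply RatFunc.eval_mul <;> simpa [Polynomial.eval₂_id] using ‹_›

@[simp] theorem ev_C (c z : ℂ) : ev (RatFunc.C c) z = c := by
  unfold ev; simp

@[simp] theorem ev_zero (z : ℂ) : ev 0 z = 0 := by
  unfold ev; simp

@[simp] theorem ev_one (z : ℂ) : ev 1 z = 1 := by
  unfold ev; simp

@[simp] theorem ev_X (z : ℂ) : ev RatFunc.X z = z := by
  unfold ev; simp

theorem ev_alg (p : ℂ[X]) (z : ℂ) : ev (algebraMap ℂ[X] (RatFunc ℂ) p) z = p.eval z := by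
  unfold ev
  rw [RatFunc.eval_algebraMap]
  simp [Polynomial.eval₂_id]

theorem ev_ne_zero {f : RatFunc ℂ} (hf : f ≠ 0) : ∀ᶠ z in cofinite, ev f z ≠ 0 := by
  have h1 : f.num ≠ 0 := RatFunc.num_ne_zero hf
  filter_upwards [cofinite_denom f, cofinite_eval_ne h1] with z h2 h3
  rw [ev_num_denom]
  exact div_ne_zero h3 h2

theorem ev_inv (f : RatFunc ℂ) : ∀ᶠ z in cofinite, ev f⁻¹ z = (ev f z)⁻¹ := by
  rcases eq_or_ne f 0 with rfl | hf
  · simp
  filter_upwards [ev_mul f f⁻¹, ev_ne_zero hf] with z h1 h2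
  rw [mul_inv_cancel₀ hf, ev_one] at h1
  rw [eq_comm, inv_eq_iff_eq_inv]
  exact eq_inv_of_mul_eq_one_left h1.symm

theorem ev_div (f g : RatFunc ℂ) : ∀ᶠ z in cofinite, ev (f / g) z = ev f z / ev g z := by
  filter_upwards [ev_mul f g⁻¹, ev_inv g] with z h1 h2
  rw [div_eq_mul_inv, h1, h2, div_eq_mul_inv]

theorem ev_neg (f : RatFunc ℂ) : ∀ᶠ z in cofinite, ev (-f) z = -ev f z := by
  filter_upwards [ev_mul (RatFunc.C (-1)) f] with z h1
  rw [ev_C, map_neg, map_one, neg_one_mul] at h1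
  rw [h1]; ring

theorem ev_sub (f g : RatFunc ℂ) : ∀ᶠ z in cofinite, ev (f - g) z = ev f z - ev g z := by
  filter_upwards [ev_add f (-g), ev_neg g] with z h1 h2
  rw [sub_eq_add_neg, h1, h2, sub_eq_add_neg]

theorem ev_pow (f : RatFunc ℂ) (n : ℕ) : ∀ᶠ z in cofinite, ev (f ^ n) z = ev f z ^ n := by
  induction n with
  | zero => simp
  | succ n ih =>
    filter_upwards [ev_mul (f ^ n) f, ih] with z h1 h2
    rw [pow_succ, h1, h2, pow_succ]

theorem ev_diff (f : RatFunc ℂ) : ∀ᶠ z in cofinite, DifferentiableAt ℂ (ev f) z := by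
  filter_upwards [cofinite_denom f] with z hz
  have h1 : ev f = fun z => f.num.eval z / f.denom.eval z := funext (ev_num_denom f)
  rw [h1]
  exact f.num.differentiable.differentiableAt.div f.denom.differentiable.differentiableAt hz

theorem nhds_of_cofinite {p : ℂ → Prop} (h : ∀ᶠ z in cofinite, p z) :
    ∀ᶠ z in cofinite, ∀ᶠ w in nhds z, p w := by
  have h1 : {z | p z}ᶜ.Finite := h
  have h2 : IsOpen {z | p z} := by
    rw [← isClosed_compl_iff]
    exact h1.isClosed
  filter_upwards [h] with z hz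
  exact h2.mem_nhds hz

theorem deriv_congr {f g : ℂ → ℂ} (h : ∀ᶠ z in cofinite, f z = g z) :
    ∀ᶠ z in cofinite, deriv f z = deriv g z := by
  filter_upwards [nhds_of_cofinite h] with z hz
  exact Filter.EventuallyEq.deriv_eq hz

theorem ae_of_cofinite {p : ℂ → Prop} (h : ∀ᶠ z in cofinite, p z) : ∀ᵐ z : ℂ, p z := by
  have h1 : {z | p z}ᶜ.Finite := h
  exact h1.measure_zero volume

end Pool.Agent.H840.KO
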