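import Pool.Agent.H840.KO.Base
set_option autoImplicit false

/-!
The regulators of the two types of curves are linearly independent over the reals.
-/

namespace Pool.Agent.H840.KO

open Polynomial MeasureTheory Filter

open scoped ComplexConjugate

/-- the statement that there is an isogeny for which the pullback of the standard differential is
`c` times the standard differential -/
def RelC (c μ l : ℂ) : Prop :=
  ∀ (P : ℂ[X]) (x s : RatFunc ℂ), Pt P μ x s →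
    ∃ x' q : RatFunc ℂ, Pt P l x' (q * s) ∧ (ng x = x → ng x' = x' ∧ ng q = q) ∧
      ∀ᶠ z in cofinite, deriv (ev x') z / ev (q * s) z = c * (deriv (ev x) z / ev s z)

theorem fa_ev (a : ℂ) : ∀ᶠ z in cofinite, ev (fa a) z = (z - a) / (z + a) := by
  unfold fa
  filter_upwards [ev_div (RatFunc.X - RatFunc.C a) (RatFunc.X - RatFunc.C (-a)),
    ev_sub RatFunc.X (RatFunc.C a), ev_sub RatFunc.X (RatFunc.C (-a))] with z a1 a2 a3
  rw [a1, a2, a3, ev_C, ev_C, ev_X, sub_neg_eq_add]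

theorem exists_datum {μ₁ μ₂ A u w t p q a : ℂ} (h : Dat μ₁ μ₂ A u w t p q) (ha : a ^ 2 = A)
    (h1 : A + μ₁ ≠ 0) (h2 : A + 1 ≠ 0) {l₁ l₂ c₁ c₂ : ℂ} (hr₁ : RelC c₁ μ₁ l₁)
    (hr₂ : RelC c₂ μ₂ l₂) :
    ∃ D : Datum l₁ l₂, D.IsK1 ∧ ∃ c : ℝ, 0 < c ∧
      D.reg = -8 * (c₁ * conj c₂) * conj (w / t) * (c * a * MM ((A + μ₁) / A) ((A + 1) / A)) := by
  have ha0 : a ≠ 0 := by
    rintro rfl
    exact h.hA (by rw [← ha]; ring)
  have hs := simple_PP (l := μ₁) h.hl₁ ha h.hA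
  obtain ⟨x₁, q₁, f1, f2, f3⟩ := hr₁ _ _ _ (Dat.pt1 (A := A) h.hl₁)
  obtain ⟨x₂, q₂, g1, g2, g3⟩ := hr₂ _ _ _ h.pt2
  obtain ⟨f4, f5⟩ := f2 (ng_bx1 A μ₁)
  obtain ⟨g4, g5⟩ := g2 (ng_bx2 u w)
  let D : Datum l₁ l₂ :=
    { P := PP A μ₁
      irr := irreducible_of_simple hs
      x₁ := x₁
      s₁ := q₁ * RatFunc.C μ₁⁻¹
      x₂ := x₂
      s₂ := q₂ * bs2 t
      f := fa a
      f_ne := fa_ne a
      eq₁ := f1.eq
      eq₂ := g1.eq }
  refine ⟨D, ?_, ?_⟩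
  · refine isK1_of D ha0 (ngp_PP A μ₁) hs rfl f4 ?_ g4 ?_
    · change ng (q₁ * RatFunc.C μ₁⁻¹) = q₁ * RatFunc.C μ₁⁻¹
      rw [map_mul, f5, ng_C]
    · change ng (q₂ * bs2 t) = -(q₂ * bs2 t)
      rw [map_mul, g5, ng_bs2]
      ring
  · obtain ⟨c, hc, hJ⟩ := JJ_eq (l := μ₁) ha h.hA h1 h2
    refine ⟨c, hc, ?_⟩
    rw [← hJ]
    unfold JJ
    rw [← integral_const_mul]
    unfold Datum.reg
    refine integral_congr_ae (ae_of_cofinite ?_)
    filter_upwards [f3, g3, bx1_deriv A μ₁, bx2_deriv u w, bs2_ev t, fa_ev a, ne_zero_cofinite]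
      with z k1 k2 k3 k4 k5 k6 k7
    have e1 : deriv (ev D.x₁) z / ev D.s₁ z = c₁ * (2 * z) := by
      change deriv (ev x₁) z / ev (q₁ * RatFunc.C μ₁⁻¹) z = _
      rw [k1, k3, ev_C]
      have := h.hl₁
      field_simp
    have e2 : deriv (ev D.x₂) z / ev D.s₂ z = c₂ * (-2 * (w / t)) := by
      change deriv (ev x₂) z / ev (q₂ * bs2 t) z = _
      rw [k2, k4, k5]
      have := h.ht0
      field_simp
    have e3 : ‖ev D.f z‖ = ‖z - a‖ / ‖z + a‖ := by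
      change ‖ev (fa a) z‖ = _
      rw [k6, norm_div]
    rw [e1, e2, e3]
    change ((2 * Real.log (‖z - a‖ / ‖z + a‖) / ‖(PP A μ₁).eval z‖ : ℝ) : ℂ) * _ = _
    have e4 : conj (c₂ * (-2 * (w / t))) = -2 * (conj c₂ * conj (w / t)) := by
      rw [map_mul, map_mul, map_neg, map_ofNat]
      ring
    rw [e4, mul_div_assoc, Complex.ofReal_mul]
    push_cast
    ring

theorem indep {c c' κ A B wt wt' a b M M' : ℂ} (hc : c ≠ 0)
    {r r' : ℝ} (hr : 0 < r) (hr' : 0 < r') (hκ : κ ≠ 0) (hA : A ≠ 0) (hB : B ≠ 0)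
    (e1 : (conj wt * a) ^ 2 = (‖A‖ : ℂ) ^ 2 * κ) (e2 : (conj wt' * b) ^ 2 = -((‖B‖ : ℂ) ^ 2 * κ))
    (hM : M.re < 0 ∧ 4 * |M.im| ≤ -M.re) (hM' : M'.re < 0 ∧ 4 * |M'.im| ≤ -M'.re)
    (h1 : c' = c * conj wt * (r * a * M)) {c'' : ℂ} (h2 : c'' = c * conj wt' * (r' * b * M')) :
    LinearIndependent ℝ ![c', c''] := by
  have nA : (0 : ℝ) < ‖A‖ := norm_pos_iff.2 hA
  have nB : (0 : ℝ) < ‖B‖ := norm_pos_iff.2 hB
  set e : ℂ := conj wt * a with he
  set e' : ℂ := conj wt' * b with he'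
  have he0 : e' ≠ 0 := by
    intro h
    rw [h, zero_pow two_ne_zero] at e2
    have : (‖B‖ : ℂ) ^ 2 * κ ≠ 0 := mul_ne_zero (pow_ne_zero 2 (by exact_mod_cast nB.ne')) hκ
    apply this
    rw [← neg_eq_zero, ← e2]
  -- `e * ‖B‖ = ± i e' ‖A‖`
  have key : ∃ ρ : ℝ, ρ ≠ 0 ∧ e = (ρ : ℂ) * Complex.I * e' := by
    have h3 : (e * ‖B‖ - Complex.I * e' * ‖A‖) * (e * ‖B‖ + Complex.I * e' * ‖A‖) = 0 := by
      have : (e * ‖B‖ - Complex.I * e' * ‖A‖) * (e * ‖B‖ + Complex.I * e' * ‖A‖) =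
          e ^ 2 * (‖B‖ : ℂ) ^ 2 - Complex.I ^ 2 * e' ^ 2 * (‖A‖ : ℂ) ^ 2 := by ring
      rw [this, e1, e2, Complex.I_sq]
      ring
    have nB' : (‖B‖ : ℂ) ≠ 0 := by exact_mod_cast nB.ne'
    rcases mul_eq_zero.1 h3 with h4 | h4
    · refine ⟨‖A‖ / ‖B‖, (div_pos nA nB).ne', ?_⟩
      push_cast
      field_simp
      linear_combination h4
    · refine ⟨-(‖A‖ / ‖B‖), neg_ne_zero.2 (div_pos nA nB).ne', ?_⟩
      push_cast
      field_simp
      linear_combination h4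
  obtain ⟨ρ, hρ, hee⟩ := key
  have hre : 0 < M.re * M'.re + M.im * M'.im := by
    obtain ⟨a1, a2⟩ := hM
    obtain ⟨b1, b2⟩ := hM'
    have h5 : |M.im * M'.im| ≤ (-M.re / 4) * (-M'.re / 4) := by
      rw [abs_mul]
      exact mul_le_mul (by linarith) (by linarith) (abs_nonneg _) (by linarith)
    have h6 := (abs_le.1 h5).1
    have h7 : 0 < M.re * M'.re := mul_pos_of_neg_of_neg a1 b1
    linarith
  rw [LinearIndependent.pair_iff]
  intro s t hst
  rw [h1, h2, Complex.real_smul, Complex.real_smul] at hst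
  have h5 : (s : ℂ) * (ρ * Complex.I * r * M) + t * (r' * M') = 0 := by
    have h6 : (c * e') * ((s : ℂ) * (ρ * Complex.I * r * M) + t * (r' * M')) = 0 := by
      rw [← hst]
      have : conj wt * a = (ρ : ℂ) * Complex.I * (conj wt' * b) := hee
      rw [he']
      linear_combination (-(s : ℂ) * c * r * M) * this
    exact (mul_eq_zero.1 h6).resolve_left (mul_ne_zero hc he0)
  have h6 := congrArg Complex.re h5
  have h7 := congrArg Complex.im h5
  simp only [Complex.add_re, Complex.mul_re, Complex.ofReal_re, Complex.ofReal_im, Complex.mul_im,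
    Complex.I_re, Complex.I_im, Complex.zero_re, Complex.zero_im, Complex.add_im, mul_zero, mul_one,
    zero_mul, sub_zero, add_zero, zero_add, zero_sub, sub_self] at h6 h7
  -- combine
  have h8 : s * (ρ * r) * (M.re * M'.re + M.im * M'.im) = 0 := by
    linear_combination (-M'.im) * h6 + M'.re * h7
  have hs : s = 0 := by
    rcases mul_eq_zero.1 h8 with h9 | h9
    · rcases mul_eq_zero.1 h9 with h10 | h10
      · exact h10
      · exact absurd h10 (mul_ne_zero hρ hr.ne')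
    · exact absurd h9 hre.ne'
  refine ⟨hs, ?_⟩
  rw [hs] at h6
  have h9 : t * (r' * M'.re) = 0 := by linarith
  rcases mul_eq_zero.1 h9 with h10 | h10
  · exact h10
  · exact absurd h10 (mul_ne_zero hr'.ne' hM'.1.ne)

end Pool.Agent.H840.KO
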