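import Pool.Agent.H840.KO.Val
set_option autoImplicit false

/-!
The involution `z ↦ -z`, `v ↦ v` and the proof that the divisor of `(z - a) / (z + a)` has zero
image in the product of the two elliptic curves.
-/

namespace Pool.Agent.H840.KO

open Polynomial WithZero

variable {P : ℂ[X]}

theorem eval₂_defPoly {S : Type*} [CommRing S] (i : RatFunc ℂ →+* S) (x : S) :
    (defPoly P).eval₂ i x = x ^ 2 - i (algebraMap ℂ[X] (RatFunc ℂ) P) := by
  unfold defPoly
  rw [eval₂_sub, eval₂_pow, eval₂_X, eval₂_C]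

/-- The involution of the function field. -/
noncomputable def tau (hP : ngp P = P) : FF P →+* FF P :=
  AdjoinRoot.lift ((rat P).comp ng.toRingHom) (vee P) (by
    rw [eval₂_defPoly, vee_sq, sub_eq_zero]
    change ofRat P _ = rat P (ng _)
    rw [ng_alg, hP]
    rfl)

theorem tau_rat (hP : ngp P = P) (g : RatFunc ℂ) : tau hP (rat P g) = rat P (ng g) :=
  AdjoinRoot.lift_of _

theorem tau_vee (hP : ngp P = P) : tau hP (vee P) = vee P :=
  AdjoinRoot.lift_root _

theorem tau_tau (hP : ngp P = P) (y : FF P) : tau hP (tau hP y) = y := by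
  obtain ⟨g, k, rfl⟩ := exists_repr y
  rw [← rat_apply, ← rat_apply]
  simp only [map_add, map_mul, tau_rat, tau_vee, ng_ng]

/-- The involution on the points of the curve. -/
noncomputable def Place.inv (hP : ngp P = P) (p : Place P) : Place P where
  w := p.w.comap (tau hP)
  triv c hc := by
    rw [Valuation.comap_apply]
    change p.w (tau hP (rat P _)) = 1
    rw [tau_rat, ng_C]
    exact p.triv c hc
  surj y := by
    obtain ⟨x, hx⟩ := p.surj y
    exact ⟨tau hP x, by rw [Valuation.comap_apply, tau_tau, hx]⟩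

theorem Place.inv_w (hP : ngp P = P) (p : Place P) (y : FF P) :
    (p.inv hP).w y = p.w (tau hP y) := rfl

theorem Place.inv_inv (hP : ngp P = P) (p : Place P) : (p.inv hP).inv hP = p := by
  apply Place.ext'
  intro y
  rw [Place.inv_w, Place.inv_w, tau_tau]

/-- The involution on the points of the curve. -/
noncomputable def invEquiv (hP : ngp P = P) : Place P ≃ Place P where
  toFun := Place.inv hP
  invFun := Place.inv hP
  left_inv := Place.inv_inv hP
  right_inv := Place.inv_inv hP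

/-- the function `(z - a) / (z + a)` -/
noncomputable def fa (a : ℂ) : RatFunc ℂ :=
  (RatFunc.X - RatFunc.C a) / (RatFunc.X - RatFunc.C (-a))

theorem X_sub_ne (a : ℂ) : (RatFunc.X - RatFunc.C a : RatFunc ℂ) ≠ 0 := by
  rw [← RatFunc.algebraMap_X, ← RatFunc.algebraMap_C, ← map_sub]
  intro h0
  have := (map_eq_zero_iff _ (RatFunc.algebraMap_injective ℂ)).1 h0
  exact X_sub_C_ne_zero a this

theorem fa_ne (a : ℂ) : fa a ≠ 0 := div_ne_zero (X_sub_ne a) (X_sub_ne (-a))

theorem ng_fa (a : ℂ) : ng (fa a) = (fa a)⁻¹ := by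
  unfold fa
  rw [map_div₀, map_sub, map_sub, ng_X, ng_C, ng_C, inv_div, map_neg]
  rw [show (-RatFunc.X - RatFunc.C a : RatFunc ℂ) = -(RatFunc.X - -RatFunc.C a) by ring,
    show (-RatFunc.X - -RatFunc.C a : RatFunc ℂ) = -(RatFunc.X - RatFunc.C a) by ring]
  exact neg_div_neg_eq _ _

theorem ord_fa_inv (hP : ngp P = P) (p : Place P) (a : ℂ) :
    (p.inv hP).ord (ofRat P (fa a)) = -p.ord (ofRat P (fa a)) := by
  unfold Place.ord
  rw [Place.inv_w, ← rat_apply, tau_rat, ng_fa, p.w_inv, log_inv]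

theorem lies_or {a : ℂ} (ha : a ≠ 0) (p : Place P) (h : p.ord (ofRat P (fa a)) ≠ 0) :
    p.Lies a ∨ p.Lies (-a) := by
  have h1 : p.w (rat P (RatFunc.X - RatFunc.C a)) ≠ p.w (rat P (RatFunc.X - RatFunc.C (-a))) := by
    intro h2
    apply h
    unfold Place.ord
    rw [← rat_apply]
    unfold fa
    rw [div_eq_mul_inv, map_mul, map_mul, p.w_inv, h2, mul_inv_cancel₀, log_one, neg_zero]
    exact p.w_ne_zero (X_sub_ne _)
  by_contra h3
  push Not at h3
  obtain ⟨h3, h4⟩ := h3
  unfold Place.Lies at h3 h4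
  push Not at h3 h4
  have h5 : p.w (rat P (RatFunc.C (2 * a))) = 1 := p.one_C _ (mul_ne_zero two_ne_zero ha)
  have e1 : rat P (RatFunc.X - RatFunc.C (-a)) =
      rat P (RatFunc.X - RatFunc.C a) + rat P (RatFunc.C (2 * a)) := by
    rw [← map_add]
    congr 1
    rw [map_neg, map_mul, map_ofNat]
    ring
  rcases h3.eq_or_lt with h6 | h6
  · rcases h4.eq_or_lt with h7 | h7
    · exact h1 (by rw [← h6, ← h7])
    · have h8 : p.w (rat P (RatFunc.X - RatFunc.C (-a))) ≤ 1 := by
        rw [e1]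
        exact Valuation.map_add_le _ h6.symm.le h5.le
      exact absurd h8 (not_le.2 h7)
  · apply h1
    rw [e1, Valuation.map_add_eq_of_lt_left _ (by rw [h5]; exact h6)]

theorem simple_neg (hP : ngp P = P) {a : ℂ} (hs : Simple P a) : Simple P (-a) := by
  obtain ⟨Q, hQ, hQa⟩ := hs
  refine ⟨-ngp Q, ?_, ?_⟩
  · conv_lhs => rw [← hP, hQ]
    rw [map_mul, map_sub]
    have h1 : ngp X = -X := by simp [ngp]
    have h2 : ngp (C a) = C a := by
      have := ngp.commutes a
      rwa [Polynomial.algebraMap_eq] at this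
    rw [h1, h2, map_neg]
    ring
  · have h1 : (ngp Q).eval (-a) = Q.eval a := by
      have : ngp Q = Q.comp (-X) := by
        unfold ngp
        rw [comp_eq_aeval]
      rw [this, eval_comp]
      simp
    rw [eval_neg, h1]
    exact neg_ne_zero.2 hQa

theorem odd_iff (p : Place P) {g : RatFunc ℂ} (h : p.w (rat P g * vee P) ≠ 1) (b : ℂ) :
    p.w (rat P g * vee P - rat P (RatFunc.C b)) < 1 ↔
      p.w (-(rat P g * vee P) - rat P (RatFunc.C b)) < 1 := by
  rcases eq_or_ne b 0 with rfl | hb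
  · rw [map_zero, map_zero, sub_zero, sub_zero, Valuation.map_neg]
  · have h1 := p.one_C b hb
    have key : ∀ y : FF P, p.w y ≠ 1 → ¬ p.w (y - rat P (RatFunc.C b)) < 1 := by
      intro y hy
      rw [not_lt]
      rcases lt_or_gt_of_ne hy with h2 | h2
      · rw [Valuation.map_sub_eq_of_lt_right _ (by rw [h1]; exact h2), h1]
      · rw [Valuation.map_sub_eq_of_lt_left _ (by rw [h1]; exact h2)]
        exact h2.le
    exact ⟨fun h2 => absurd h2 (key _ h), fun h2 => absurd h2 (key _ (by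
      rw [Valuation.map_neg]; exact h))⟩

theorem at_even (hP : ngp P = P) (p : Place P) {x s : RatFunc ℂ} (hx : ng x = x) (hs : ng s = s)
    (q : Option (ℂ × ℂ)) : (p.inv hP).At (ofRat P x) (ofRat P s * vee P) q ↔
      p.At (ofRat P x) (ofRat P s * vee P) q := by
  rw [← rat_apply, ← rat_apply]
  rcases q with _ | ⟨b, c⟩
  · change 1 < (p.inv hP).w _ ↔ 1 < p.w _
    rw [Place.inv_w, tau_rat, hx]
  · change (p.inv hP).w (_ - rat P _) < 1 ∧ (p.inv hP).w (_ - rat P _) < 1 ↔
      p.w (_ - rat P _) < 1 ∧ p.w (_ - rat P _) < 1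
    rw [Place.inv_w, Place.inv_w, map_sub (tau hP), map_sub (tau hP), map_mul, tau_rat, tau_rat, tau_rat, tau_rat,
      tau_vee, hx, hs, ng_C, ng_C]

theorem at_odd (hP : ngp P = P) (p : Place P) {x s : RatFunc ℂ} (hx : ng x = x) (hs : ng s = -s)
    (h : p.w (rat P s * vee P) ≠ 1) (q : Option (ℂ × ℂ)) :
    (p.inv hP).At (ofRat P x) (ofRat P s * vee P) q ↔
      p.At (ofRat P x) (ofRat P s * vee P) q := by
  rw [← rat_apply, ← rat_apply]
  rcases q with _ | ⟨b, c⟩
  · change 1 < (p.inv hP).w _ ↔ 1 < p.w _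
    rw [Place.inv_w, tau_rat, hx]
  · change (p.inv hP).w (_ - rat P _) < 1 ∧ (p.inv hP).w (_ - rat P _) < 1 ↔
      p.w (_ - rat P _) < 1 ∧ p.w (_ - rat P _) < 1
    rw [Place.inv_w, Place.inv_w, map_sub (tau hP), map_sub (tau hP), map_mul, tau_rat, tau_rat, tau_rat, tau_rat,
      tau_vee, hx, hs, ng_C, ng_C, map_neg, neg_mul, odd_iff p h c]

theorem isK1_of {l₁ l₂ : ℂ} (D : Datum l₁ l₂) {a : ℂ} (ha : a ≠ 0) (hP : ngp D.P = D.P)
    (hs : Simple D.P a) (hf : D.f = fa a) (hx₁ : ng D.x₁ = D.x₁) (hs₁ : ng D.s₁ = D.s₁)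
    (hx₂ : ng D.x₂ = D.x₂) (hs₂ : ng D.s₂ = -D.s₂) : D.IsK1 := by
  have hs' := simple_neg hP hs
  constructor
  · have h1 : {p : Place D.P | p.ord (ofRat D.P D.f) ≠ 0} ⊆
        {p | p.Lies a} ∪ {p | p.Lies (-a)} := by
      intro p hp
      rw [Set.mem_ofPred_eq, hf] at hp
      exact lies_or ha p hp
    refine Set.Finite.subset (Set.Finite.union ?_ ?_) h1
    · exact Set.Subsingleton.finite fun p hp q hq => Place.Lies.unique hp hq hs
    · exact Set.Subsingleton.finite fun p hp q hq => Place.Lies.unique hp hq hs'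
  · intro q₁ q₂
    have key : ∀ p : Place D.P,
        (∑ᶠ (_ : D.Over (p.inv hP) q₁ q₂), (p.inv hP).ord (ofRat D.P D.f)) =
          -∑ᶠ (_ : D.Over p q₁ q₂), p.ord (ofRat D.P D.f) := by
      intro p
      classical
      rw [finsum_eq_if, finsum_eq_if, hf, ord_fa_inv]
      by_cases h0 : p.ord (ofRat D.P (fa a)) = 0
      · rw [h0]; simp
      · have hne : p.w (rat D.P D.s₂ * vee D.P) ≠ 1 := by
          rcases lies_or ha p h0 with h1 | h1
          · exact h1.odd_ne_one hs _
          · exact h1.odd_ne_one hs' _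
        have hiff : D.Over (p.inv hP) q₁ q₂ ↔ D.Over p q₁ q₂ := by
          unfold Datum.Over
          rw [at_even hP p hx₁ hs₁, at_odd hP p hx₂ hs₂ hne]
        by_cases h2 : D.Over p q₁ q₂
        · rw [if_pos (hiff.2 h2), if_pos h2]
        · rw [if_neg (fun h => h2 (hiff.1 h)), if_neg h2, neg_zero]
    have h1 : ∑ᶠ p : Place D.P, (∑ᶠ (_ : D.Over (p.inv hP) q₁ q₂),
        (p.inv hP).ord (ofRat D.P D.f)) =
        ∑ᶠ p : Place D.P, ∑ᶠ (_ : D.Over p q₁ q₂), p.ord (ofRat D.P D.f) :=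
      finsum_comp_equiv (invEquiv hP)
        (f := fun p : Place D.P => ∑ᶠ (_ : D.Over p q₁ q₂), p.ord (ofRat D.P D.f))
    rw [finsum_congr key, finsum_neg_distrib] at h1
    omega

end Pool.Agent.H840.KO
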