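import Pool.Agent.H840.KO.Ev
set_option autoImplicit false

/-!
Isogenies of degree two: the transformations of Gauss and Landen.
-/

namespace Pool.Agent.H840.KO

open Polynomial MeasureTheory Filter

/-- The substitution `z ↦ -z` in polynomials. -/
noncomputable def ngp : ℂ[X] →ₐ[ℂ] ℂ[X] := Polynomial.aeval (-X)

theorem ngp_ngp (p : ℂ[X]) : ngp (ngp p) = p := by
  have h : ngp.comp ngp = AlgHom.id ℂ ℂ[X] := by
    apply Polynomial.algHom_ext
    simp [ngp]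
  exact DFunLike.congr_fun h p

theorem ngp_injective : Function.Injective ngp :=
  Function.LeftInverse.injective ngp_ngp

/-- The substitution `z ↦ -z` in rational functions. -/
noncomputable def ng : RatFunc ℂ →ₐ[ℂ] RatFunc ℂ :=
  RatFunc.mapAlgHom ngp (by
    intro p hp
    rw [Submonoid.mem_comap]
    rw [mem_nonZeroDivisors_iff_ne_zero] at hp ⊢
    exact fun h => hp (ngp_injective (by rw [h, map_zero])))

theorem ng_C (c : ℂ) : ng (RatFunc.C c) = RatFunc.C c := by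
  have := ng.commutes c
  rwa [RatFunc.algebraMap_eq_C] at this

theorem ng_alg (p : ℂ[X]) : ng (algebraMap ℂ[X] (RatFunc ℂ) p) =
    algebraMap ℂ[X] (RatFunc ℂ) (ngp p) := by
  unfold ng
  rw [RatFunc.coe_mapAlgHom_eq_coe_map]
  have := RatFunc.map_apply_div (φ := ngp) (hφ := by
    intro p hp
    rw [Submonoid.mem_comap]
    rw [mem_nonZeroDivisors_iff_ne_zero] at hp ⊢
    exact fun h => hp (ngp_injective (by rw [h, map_zero]))) p 1
  simpa using this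

theorem ng_X : ng RatFunc.X = -RatFunc.X := by
  rw [← RatFunc.algebraMap_X, ng_alg, ← map_neg]
  simp [ngp]

theorem ng_ng (f : RatFunc ℂ) : ng (ng f) = f := by
  induction f using RatFunc.induction_on with
  | _ p q hq => rw [map_div₀, map_div₀, ng_alg, ng_alg, ng_alg, ng_alg, ngp_ngp, ngp_ngp]

/-- A nonconstant map from the curve `v ^ 2 = P(z)` to the elliptic curve
`y ^ 2 = x * (1 - x) * (1 - l * x)`. -/
structure Pt (P : ℂ[X]) (l : ℂ) (x s : RatFunc ℂ) : Prop where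
  eq : s ^ 2 * algebraMap ℂ[X] (RatFunc ℂ) P = x * (1 - x) * (1 - RatFunc.C l * x)
  der : ∀ᶠ z in cofinite, deriv (ev x) z ≠ 0

theorem Pt.ne_C {P : ℂ[X]} {l : ℂ} {x s : RatFunc ℂ} (h : Pt P l x s) (c : ℂ) :
    x ≠ RatFunc.C c := by
  rintro rfl
  have h1 := h.der
  have h2 : ev (RatFunc.C c) = fun _ => c := funext fun z => ev_C c z
  rw [h2] at h1
  simp only [deriv_const', ne_eq, not_true_eq_false, eventually_cofinite, not_false_eq_true,
    Set.ofPred_true] at h1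
  exact Set.infinite_univ h1

theorem Pt.one_sub_ne {P : ℂ[X]} {l : ℂ} {x s : RatFunc ℂ} (h : Pt P l x s) (c : ℂ) :
    1 - RatFunc.C c * x ≠ 0 := by
  intro h1
  rcases eq_or_ne c 0 with rfl | hc
  · simp at h1
  · refine h.ne_C c⁻¹ ?_
    have hc' : (RatFunc.C c : RatFunc ℂ) ≠ 0 := by
      rwa [Ne, map_eq_zero]
    rw [map_inv₀]
    rw [sub_eq_zero] at h1
    exact eq_inv_of_mul_eq_one_right h1.symm

theorem Pt.one_add_ne {P : ℂ[X]} {l : ℂ} {x s : RatFunc ℂ} (h : Pt P l x s) (c : ℂ) :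
    1 + RatFunc.C c * x ≠ 0 := by
  have := h.one_sub_ne (-c)
  rwa [map_neg, neg_mul, sub_neg_eq_add] at this

/-- `Rel μ l`: there is an isogeny from the elliptic curve with parameter `μ` to that with
parameter `l`. -/
def Rel (μ l : ℂ) : Prop :=
  ∃ c : ℂ, c ≠ 0 ∧ ∀ (P : ℂ[X]) (x s : RatFunc ℂ), Pt P μ x s →
    ∃ x' q : RatFunc ℂ, Pt P l x' (q * s) ∧ (ng x = x → ng x' = x' ∧ ng q = q) ∧
      ∀ᶠ z in cofinite, deriv (ev x') z / ev (q * s) z = c * (deriv (ev x) z / ev s z)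

theorem Rel.trans {a b l : ℂ} (h1 : Rel a b) (h2 : Rel b l) : Rel a l := by
  obtain ⟨c1, hc1, h1⟩ := h1
  obtain ⟨c2, hc2, h2⟩ := h2
  refine ⟨c2 * c1, mul_ne_zero hc2 hc1, fun P x s hx => ?_⟩
  obtain ⟨x1, q1, g1, g2, g3⟩ := h1 P x s hx
  obtain ⟨x2, q2, k1, k2, k3⟩ := h2 P x1 (q1 * s) g1
  refine ⟨x2, q2 * q1, ?_, ?_, ?_⟩
  · rw [mul_assoc]; exact k1
  · intro h
    obtain ⟨a1, a2⟩ := g2 h
    obtain ⟨b1, b2⟩ := k2 a1
    exact ⟨b1, by rw [map_mul, b2, a2]⟩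
  · filter_upwards [g3, k3] with z h3 h4
    rw [mul_assoc, h4, h3, mul_assoc]

theorem Rel.refl (l : ℂ) : Rel l l :=
  ⟨1, one_ne_zero, fun P x s hx => ⟨x, 1, by rw [one_mul]; exact hx, fun h => ⟨h, map_one _⟩, by
    simp⟩⟩

theorem gauss_eq {K : Type*} [Field K] {x k s p : K} (h1 : 1 + k * x ≠ 0) (h2 : 1 + k ≠ 0)
    (h : s ^ 2 * p = x * (1 - x) * (1 - k ^ 2 * x)) :
    ((1 + k) * (1 - k * x) / (1 + k * x) ^ 3 * s) ^ 2 * p =
      ((1 + k) ^ 2 * x / (1 + k * x) ^ 2) * (1 - (1 + k) ^ 2 * x / (1 + k * x) ^ 2) *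
        (1 - (4 * k / (1 + k) ^ 2) * ((1 + k) ^ 2 * x / (1 + k * x) ^ 2)) := by
  have e1 : 1 - (1 + k) ^ 2 * x / (1 + k * x) ^ 2 = (1 - x) * (1 - k ^ 2 * x) / (1 + k * x) ^ 2 := by
    field_simp
    ring
  have e2 : 1 - (4 * k / (1 + k) ^ 2) * ((1 + k) ^ 2 * x / (1 + k * x) ^ 2) =
      (1 - k * x) ^ 2 / (1 + k * x) ^ 2 := by
    field_simp
    ring
  rw [e1, e2]
  rw [mul_pow, mul_assoc, h]
  field_simp

theorem gauss_rel {k : ℂ} (h1 : 1 + k ≠ 0) : Rel (k ^ 2) (4 * k / (1 + k) ^ 2) := by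
  refine ⟨1 + k, h1, fun P x s hx => ?_⟩
  have hp : 1 + RatFunc.C k * x ≠ 0 := hx.one_add_ne k
  have hm : 1 - RatFunc.C k * x ≠ 0 := hx.one_sub_ne k
  set x' : RatFunc ℂ := RatFunc.C ((1 + k) ^ 2) * x / (1 + RatFunc.C k * x) ^ 2 with hx'
  set q : RatFunc ℂ := RatFunc.C (1 + k) * (1 - RatFunc.C k * x) / (1 + RatFunc.C k * x) ^ 3 with hq
  have ex : ∀ᶠ z in cofinite, ev x' z = (1 + k) ^ 2 * ev x z / (1 + k * ev x z) ^ 2 := by
    filter_upwards [ev_div (RatFunc.C ((1 + k) ^ 2) * x) ((1 + RatFunc.C k * x) ^ 2),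
      ev_mul (RatFunc.C ((1 + k) ^ 2)) x, ev_pow (1 + RatFunc.C k * x) 2, ev_add 1 (RatFunc.C k * x),
      ev_mul (RatFunc.C k) x] with z a1 a2 a3 a4 a5
    rw [hx', a1, a2, a3, a4, a5, ev_C, ev_C, ev_one]
  have eq : ∀ᶠ z in cofinite, ev q z = (1 + k) * (1 - k * ev x z) / (1 + k * ev x z) ^ 3 := by
    filter_upwards [ev_div (RatFunc.C (1 + k) * (1 - RatFunc.C k * x)) ((1 + RatFunc.C k * x) ^ 3),
      ev_mul (RatFunc.C (1 + k)) (1 - RatFunc.C k * x), ev_pow (1 + RatFunc.C k * x) 3,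
      ev_add 1 (RatFunc.C k * x), ev_sub 1 (RatFunc.C k * x),
      ev_mul (RatFunc.C k) x] with z a1 a2 a3 a4 a5 a6
    rw [hq, a1, a2, a3, a4, a5, a6, ev_C, ev_C, ev_one]
  have hp' : ∀ᶠ z in cofinite, 1 + k * ev x z ≠ 0 := by
    filter_upwards [ev_ne_zero hp, ev_add 1 (RatFunc.C k * x), ev_mul (RatFunc.C k) x] with z a1 a2 a3
    rwa [a2, a3, ev_C, ev_one] at a1
  have hm' : ∀ᶠ z in cofinite, 1 - k * ev x z ≠ 0 := by
    filter_upwards [ev_ne_zero hm, ev_sub 1 (RatFunc.C k * x), ev_mul (RatFunc.C k) x] with z a1 a2 a3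
    rwa [a2, a3, ev_C, ev_one] at a1
  have hd : ∀ᶠ z in cofinite, deriv (ev x') z =
      (1 + k) ^ 2 * (1 - k * ev x z) / (1 + k * ev x z) ^ 3 * deriv (ev x) z := by
    filter_upwards [deriv_congr ex, ev_diff x, hp'] with z a1 a2 a3
    rw [a1]
    have b1 := a2.hasDerivAt
    have b2 : HasDerivAt (fun z => (1 + k) ^ 2 * ev x z) ((1 + k) ^ 2 * deriv (ev x) z) z :=
      b1.const_mul _
    have b3 : HasDerivAt (fun z => (1 + k * ev x z) ^ 2)
        (2 * (1 + k * ev x z) ^ 1 * (k * deriv (ev x) z)) z := by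
      exact ((b1.const_mul k).const_add 1).pow 2
    have b4 := b2.div b3 (pow_ne_zero 2 a3)
    have b5 := b4.deriv
    have b6 : (fun z => (1 + k) ^ 2 * ev x z / (1 + k * ev x z) ^ 2) =
        ((fun z => (1 + k) ^ 2 * ev x z) / fun z => (1 + k * ev x z) ^ 2) := rfl
    rw [b6, b5]
    field_simp
    ring
  refine ⟨x', q, ⟨?_, ?_⟩, ?_, ?_⟩
  · have hc : (1 : RatFunc ℂ) + RatFunc.C k ≠ 0 := by
      intro h
      apply h1
      have : RatFunc.C (1 + k) = (0 : RatFunc ℂ) := by rw [map_add, map_one, h]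
      rwa [map_eq_zero] at this
    have h := gauss_eq (k := RatFunc.C k) (x := x) (s := s)
      (p := algebraMap ℂ[X] (RatFunc ℂ) P) hp hc (by rw [hx.eq, map_pow])
    rw [hx', hq]
    simp only [map_div₀, map_mul, map_pow, map_add, map_one, map_ofNat]
    exact h
  · filter_upwards [hd, hx.der, hp', hm'] with z a1 a2 a3 a4
    rw [a1]
    exact mul_ne_zero (div_ne_zero (mul_ne_zero (pow_ne_zero 2 h1) a4) (pow_ne_zero 3 a3)) a2
  · intro h
    constructor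
    · rw [hx']
      simp only [map_div₀, map_mul, map_pow, map_add, map_one, ng_C, h]
    · rw [hq]
      simp only [map_div₀, map_mul, map_pow, map_add, map_sub, map_one, ng_C, h]
  · filter_upwards [hd, eq, ev_mul q s, hp', hm'] with z a1 a2 a3 a4 a5
    rw [a3, a1, a2]
    field_simp

theorem inv_rel {l : ℂ} (h0 : l ≠ 0) : Rel l⁻¹ l := by
  obtain ⟨r, hr⟩ := IsSquare.exists_sq l⁻¹ (IsAlgClosed.exists_eq_mul_self l⁻¹)
  have hr0 : r ≠ 0 := by
    rintro rfl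
    rw [zero_pow two_ne_zero, inv_eq_zero] at hr
    exact h0 hr
  refine ⟨r, hr0, fun P x s hx => ?_⟩
  have ex : ∀ᶠ z in cofinite, ev (RatFunc.C l⁻¹ * x) z = l⁻¹ * ev x z := by
    filter_upwards [ev_mul (RatFunc.C l⁻¹) x] with z a1
    rw [a1, ev_C]
  have hd : ∀ᶠ z in cofinite, deriv (ev (RatFunc.C l⁻¹ * x)) z = l⁻¹ * deriv (ev x) z := by
    filter_upwards [deriv_congr ex, ev_diff x] with z a1 a2
    rw [a1]
    exact (a2.hasDerivAt.const_mul _).deriv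
  refine ⟨RatFunc.C l⁻¹ * x, RatFunc.C r, ⟨?_, ?_⟩, ?_, ?_⟩
  · rw [mul_pow, mul_assoc, hx.eq, ← map_pow, ← hr]
    have hl : (RatFunc.C l : RatFunc ℂ) ≠ 0 := by rwa [Ne, map_eq_zero]
    simp only [map_inv₀]
    field_simp
  · filter_upwards [hd, hx.der] with z a1 a2
    rw [a1]
    exact mul_ne_zero (inv_ne_zero h0) a2
  · intro h
    exact ⟨by rw [map_mul, ng_C, h], ng_C r⟩
  · filter_upwards [hd, ev_mul (RatFunc.C r) s] with z a1 a2
    rw [a1, a2, ev_C, hr]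
    field_simp

/-- Every elliptic curve except those with real parameter at least one is isogenous to one with
parameter in the unit disc. -/
theorem step {l : ℂ} (h0 : l ≠ 0) (hl : ¬ (l.im = 0 ∧ 1 ≤ l.re)) :
    ∃ k : ℂ, k ≠ 0 ∧ ‖k‖ < 1 ∧ l = 4 * k / (1 + k) ^ 2 := by
  obtain ⟨w, hw⟩ := IsSquare.exists_sq (1 - l) (IsAlgClosed.exists_eq_mul_self (1 - l))
  have key : ∃ w : ℂ, 1 - l = w ^ 2 ∧ 0 < w.re := by
    rcases lt_trichotomy w.re 0 with h | h | h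
    · exact ⟨-w, by rw [hw]; ring, by simpa using h⟩
    · exfalso
      apply hl
      have h2 : l = 1 - w ^ 2 := by rw [← hw]; ring
      constructor
      · rw [h2]
        simp [pow_two, h]
      · rw [h2]
        simp only [pow_two, Complex.sub_re, Complex.one_re, Complex.mul_re, h]
        nlinarith [mul_self_nonneg w.im]
    · exact ⟨w, hw, h⟩
  obtain ⟨w, hw, hwp⟩ := key
  have h1w : 1 + w ≠ 0 := by
    intro h
    have := congrArg Complex.re h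
    simp at this
    linarith
  have h1k : 1 + (1 - w) / (1 + w) = 2 / (1 + w) := by
    field_simp
    ring
  refine ⟨(1 - w) / (1 + w), ?_, ?_, ?_⟩
  · intro h
    rw [div_eq_zero_iff] at h
    rcases h with h | h
    · apply h0
      have : w = 1 := (sub_eq_zero.1 h).symm
      rw [this] at hw
      have : l = 1 - (1 - l) := by ring
      rw [this, hw]
      ring
    · exact h1w h
  · rw [norm_div, div_lt_one (norm_pos_iff.2 h1w)]
    have e1 : ‖1 - w‖ ^ 2 = (1 - w.re) ^ 2 + w.im ^ 2 := by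
      rw [Complex.sq_norm, Complex.normSq_apply]
      simp
      ring
    have e2 : ‖1 + w‖ ^ 2 = (1 + w.re) ^ 2 + w.im ^ 2 := by
      rw [Complex.sq_norm, Complex.normSq_apply]
      simp
      ring
    refine lt_of_pow_lt_pow_left₀ 2 (norm_nonneg _) ?_
    rw [e1, e2]
    nlinarith
  · rw [h1k]
    have : l = 1 - w ^ 2 := by rw [← hw]; ring
    rw [this]
    field_simp
    ring

theorem norm_le_of_step {k : ℂ} (hk : ‖k‖ < 1) : ‖k‖ ≤ ‖4 * k / (1 + k) ^ 2‖ := by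
  rw [norm_div, norm_mul, norm_pow]
  have h1 : 1 + k ≠ 0 := by
    intro h
    have h2 : k = -1 := by
      have : k = (1 + k) - 1 := by ring
      rw [this, h]; ring
    rw [h2, norm_neg, norm_one] at hk
    exact lt_irrefl _ hk
  have h2 : ‖1 + k‖ ≤ 2 := by
    have := norm_add_le 1 k
    rw [norm_one] at this
    linarith
  have h3 : 0 < ‖1 + k‖ := norm_pos_iff.2 h1
  rw [le_div_iff₀ (by positivity)]
  have h4 : ‖(4 : ℂ)‖ = 4 := by simp
  rw [h4]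
  have h5 := norm_nonneg k
  nlinarith [mul_le_mul h2 h2 h3.le (by norm_num)]

theorem one_add_ne {k : ℂ} (hk : ‖k‖ < 1) : 1 + k ≠ 0 := by
  intro h
  have h2 : k = -1 := by
    have : k = (1 + k) - 1 := by ring
    rw [this, h]; ring
  rw [h2, norm_neg, norm_one] at hk
  exact lt_irrefl _ hk

theorem rel_small {l : ℂ} (h0 : l ≠ 0) {r : ℝ} (hr : ‖l‖ ≤ r) (hr1 : r < 1) (n : ℕ) :
    ∃ μ : ℂ, μ ≠ 0 ∧ ‖μ‖ ≤ r ^ (n + 1) ∧ Rel μ l := by
  have hr0 : 0 < r := lt_of_lt_of_le (norm_pos_iff.2 h0) hr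
  induction n with
  | zero => exact ⟨l, h0, by simpa using hr, Rel.refl l⟩
  | succ n ih =>
    obtain ⟨μ, h1, h2, h3⟩ := ih
    have h4 : ‖μ‖ < 1 := h2.trans_lt (pow_lt_one₀ hr0.le hr1 (by omega))
    have h5 : ¬ (μ.im = 0 ∧ 1 ≤ μ.re) := by
      rintro ⟨_, h6⟩
      have := Complex.re_le_norm μ
      linarith
    obtain ⟨k, k1, k2, k3⟩ := step h1 h5
    refine ⟨k ^ 2, pow_ne_zero 2 k1, ?_, ?_⟩
    · rw [norm_pow]
      have h6 := norm_le_of_step k2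
      rw [← k3] at h6
      have h7 : ‖k‖ ^ 2 ≤ (r ^ (n + 1)) ^ 2 := pow_le_pow_left₀ (norm_nonneg _) (h6.trans h2) 2
      refine h7.trans ?_
      rw [← pow_mul]
      exact pow_le_pow_of_le_one hr0.le hr1.le (by omega)
    · refine Rel.trans ?_ h3
      have := gauss_rel (one_add_ne k2)
      rwa [← k3] at this

theorem rel_small' {l : ℂ} (h0 : l ≠ 0) (h1 : ‖l‖ < 1) {δ : ℝ} (hδ : 0 < δ) :
    ∃ μ : ℂ, μ ≠ 0 ∧ ‖μ‖ < δ ∧ Rel μ l := by
  obtain ⟨n, hn⟩ := exists_pow_lt_of_lt_one hδ h1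
  obtain ⟨μ, a, b, c⟩ := rel_small h0 le_rfl h1 n
  refine ⟨μ, a, ?_, c⟩
  refine lt_of_le_of_lt (b.trans ?_) hn
  exact pow_le_pow_of_le_one (norm_nonneg _) h1.le (by omega)

theorem rel_all {l : ℂ} (h0 : l ≠ 0) (h1 : l ≠ 1) {δ : ℝ} (hδ : 0 < δ) :
    ∃ μ : ℂ, μ ≠ 0 ∧ ‖μ‖ < δ ∧ Rel μ l := by
  have main : ∀ l : ℂ, l ≠ 0 → ¬ (l.im = 0 ∧ 1 ≤ l.re) → ∃ μ : ℂ, μ ≠ 0 ∧ ‖μ‖ < δ ∧ Rel μ l := by
    intro l h0 hl
    obtain ⟨k, k1, k2, k3⟩ := step h0 hl
    have h2 : ‖k ^ 2‖ < 1 := by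
      rw [norm_pow]
      exact pow_lt_one₀ (norm_nonneg _) k2 two_ne_zero
    obtain ⟨μ, a, b, c⟩ := rel_small' (pow_ne_zero 2 k1) h2 hδ
    refine ⟨μ, a, b, c.trans ?_⟩
    have := gauss_rel (one_add_ne k2)
    rwa [← k3] at this
  by_cases hl : l.im = 0 ∧ 1 ≤ l.re
  · obtain ⟨him, hre⟩ := hl
    have hl' : l = (l.re : ℂ) := by
      apply Complex.ext <;> simp [him]
    have hre1 : 1 < l.re := by
      refine lt_of_le_of_ne hre ?_
      intro h
      apply h1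
      rw [hl', ← h]
      simp
    have hi : ¬ ((l⁻¹).im = 0 ∧ 1 ≤ (l⁻¹).re) := by
      rintro ⟨_, h⟩
      rw [hl', ← Complex.ofReal_inv, Complex.ofReal_re] at h
      have := inv_lt_one_of_one_lt₀ hre1
      linarith
    obtain ⟨μ, a, b, c⟩ := main l⁻¹ (inv_ne_zero h0) hi
    exact ⟨μ, a, b, c.trans (inv_rel h0)⟩
  · exact main l h0 hl

end Pool.Agent.H840.KO
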