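import Pool.Agent.H840.KO.Int
set_option autoImplicit false

/-!
The function `log |(x - 1) / (x + 1)|` and its integrals over discs.
-/

namespace Pool.Agent.H840.KO

open MeasureTheory Set Metric

open scoped ComplexConjugate

/-- `log |(x - 1) / (x + 1)|` -/
noncomputable def Lam (x : ℂ) : ℝ := Real.log (‖x - 1‖ / ‖x + 1‖)

/-- `|log |(x - 1) / (x + 1)|| |x| / |x ^ 2 - 1|` -/
noncomputable def G (x : ℂ) : ℝ := |Lam x| * ‖x‖ / ‖x ^ 2 - 1‖

theorem measurable_Lam : Measurable Lam := by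
  unfold Lam
  fun_prop

theorem measurable_G : Measurable G := by
  unfold G
  have := measurable_Lam
  fun_prop

theorem G_nonneg (x : ℂ) : 0 ≤ G x := by
  unfold G; positivity

theorem Lam_far {x : ℂ} (hx : 2 ≤ ‖x‖) : |Lam x| ≤ 4 / ‖x‖ := by
  have hp : ‖x‖ / 2 ≤ ‖x - 1‖ := by
    have := norm_sub_norm_le x 1
    rw [norm_one] at this
    linarith
  have hq : ‖x‖ / 2 ≤ ‖x + 1‖ := by
    have := norm_sub_norm_le x (-1)
    rw [norm_neg, norm_one, sub_neg_eq_add] at this
    linarith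
  have hpq : |‖x - 1‖ - ‖x + 1‖| ≤ 2 := by
    have := abs_norm_sub_norm_le (x - 1) (x + 1)
    have h2 : x - 1 - (x + 1) = -2 := by ring
    rw [h2] at this
    simpa using this
  obtain ⟨h1, h2⟩ := abs_le.1 hpq
  set p := ‖x - 1‖
  set q := ‖x + 1‖
  have hx0 : 0 < ‖x‖ := by linarith
  have hp0 : 0 < p := by linarith
  have hq0 : 0 < q := by linarith
  have key : ∀ a b : ℝ, 0 < a → 0 < b → ‖x‖ / 2 ≤ b → a - b ≤ 2 → Real.log (a / b) ≤ 4 / ‖x‖ := by
    intro a b ha hb hb2 hab
    have h3 := Real.log_le_sub_one_of_pos (div_pos ha hb)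
    have h4 : a / b - 1 = (a - b) / b := by field_simp
    rw [h4] at h3
    refine h3.trans ?_
    rw [div_le_div_iff₀ hb hx0]
    nlinarith
  unfold Lam
  rw [abs_le]
  constructor
  · have := key q p hq0 hp0 hp (by linarith)
    rw [Real.log_div hq0.ne' hp0.ne'] at this
    change -(4 / ‖x‖) ≤ Real.log (p / q)
    rw [Real.log_div hp0.ne' hq0.ne']
    linarith
  · exact key p q hp0 hq0 hq (by linarith)

theorem G_far {x : ℂ} (hx : 2 ≤ ‖x‖) : G x ≤ 16 / 3 / ‖x‖ ^ 2 := by
  have h1 := Lam_far hx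
  have h2 := sq_sub_one_ge hx
  have hx0 : 0 < ‖x‖ := by linarith
  unfold G
  have h3 : |Lam x| * ‖x‖ ≤ 4 := by
    rwa [le_div_iff₀ hx0] at h1
  calc |Lam x| * ‖x‖ / ‖x ^ 2 - 1‖ ≤ 4 / (3 / 4 * ‖x‖ ^ 2) := by
        apply div_le_div₀ (by norm_num) h3 (by positivity) h2
    _ = 16 / 3 / ‖x‖ ^ 2 := by
        field_simp
        norm_num

theorem abs_log_le {t : ℝ} (h0 : 0 < t) (h3 : t ≤ 3) : |Real.log t| ≤ 4 * t ^ (-(1 / 2) : ℝ) := by
  rcases le_or_gt t 1 with h1 | h1
  · have h := Real.abs_log_mul_self_rpow_lt t (1 / 2) h0 h1 (by norm_num)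
    have h2 : 0 < t ^ (1 / 2 : ℝ) := by positivity
    rw [abs_mul, abs_of_pos h2] at h
    rw [Real.rpow_neg h0.le, ← div_eq_mul_inv, le_div_iff₀ h2]
    norm_num at h ⊢
    linarith
  · rw [abs_of_nonneg (Real.log_nonneg h1.le)]
    have h2 := Real.log_le_sub_one_of_pos h0
    have h4 : (1 / 2 : ℝ) ≤ t ^ (-(1 / 2) : ℝ) := by
      rw [Real.rpow_neg h0.le, ← Real.sqrt_eq_rpow, one_div]
      apply inv_anti₀ (by positivity)
      rw [Real.sqrt_le_left (by norm_num)]
      linarith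
    linarith

theorem rpow_three_half {t : ℝ} (h0 : 0 ≤ t) : t ^ (-(3 / 2) : ℝ) = t ^ (-(1 / 2) : ℝ) * t⁻¹ := by
  rcases h0.eq_or_lt with h | h
  · subst h
    rw [inv_zero, mul_zero, Real.zero_rpow (by norm_num)]
  · rw [← Real.rpow_neg_one t, ← Real.rpow_add h]
    norm_num

/-- the bound of `G` near the singularities -/
noncomputable def near (x : ℂ) : ℝ := 16 * (‖x - 1‖ ^ (-(3 / 2) : ℝ) + ‖x + 1‖ ^ (-(3 / 2) : ℝ))

theorem near_nonneg (x : ℂ) : 0 ≤ near x := by
  unfold near; positivity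

theorem aux_near {p q : ℝ} (hp : 0 < p) (hpq : p ≤ q) (hq1 : 1 ≤ q) :
    (p ^ (-(1 / 2) : ℝ) + q ^ (-(1 / 2) : ℝ)) / (p * q) ≤
      2 * (p ^ (-(3 / 2) : ℝ) + q ^ (-(3 / 2) : ℝ)) := by
  have h1 : q ^ (-(1 / 2) : ℝ) ≤ p ^ (-(1 / 2) : ℝ) :=
    Real.rpow_le_rpow_of_nonpos hp hpq (by norm_num)
  have h2 : (0 : ℝ) ≤ q ^ (-(3 / 2) : ℝ) := by positivity
  have h3 : 0 < p ^ (-(1 / 2) : ℝ) := by positivity
  have h4 : 0 < p⁻¹ := by positivity
  rw [rpow_three_half hp.le]
  have h5 : (p ^ (-(1 / 2) : ℝ) + q ^ (-(1 / 2) : ℝ)) / (p * q) ≤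
      (2 * p ^ (-(1 / 2) : ℝ)) / (p * 1) := by
    apply div_le_div₀ (by positivity) (by linarith) (by positivity)
    exact mul_le_mul_of_nonneg_left hq1 hp.le
  rw [mul_one, mul_div_assoc, div_eq_mul_inv (p ^ (-(1 / 2) : ℝ)) p] at h5
  linarith

theorem G_near {x : ℂ} (hx : ‖x‖ < 2) : G x ≤ near x := by
  unfold G near
  have hp : 0 ≤ ‖x - 1‖ := norm_nonneg _
  have hq : 0 ≤ ‖x + 1‖ := norm_nonneg _
  have hp3 : ‖x - 1‖ ≤ 3 := by
    have := norm_sub_le x 1
    rw [norm_one] at this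
    linarith
  have hq3 : ‖x + 1‖ ≤ 3 := by
    have := norm_add_le x 1
    rw [norm_one] at this
    linarith
  have hpq := two_le_add x
  rw [norm_sq_sub_one]
  unfold Lam
  set p := ‖x - 1‖
  set q := ‖x + 1‖
  rcases hp.eq_or_lt with h | hp0
  · rw [← h]
    simp only [zero_mul, div_zero]
    positivity
  rcases hq.eq_or_lt with h | hq0
  · rw [← h]
    simp only [mul_zero, div_zero]
    positivity
  have h1 : |Real.log (p / q)| ≤ 4 * (p ^ (-(1 / 2) : ℝ) + q ^ (-(1 / 2) : ℝ)) := by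
    rw [Real.log_div hp0.ne' hq0.ne']
    have h2 := abs_log_le hp0 hp3
    have h3 := abs_log_le hq0 hq3
    have h4 := abs_sub (Real.log p) (Real.log q)
    linarith
  have h5 : |Real.log (p / q)| * ‖x‖ / (p * q) ≤
      8 * ((p ^ (-(1 / 2) : ℝ) + q ^ (-(1 / 2) : ℝ)) / (p * q)) := by
    rw [← mul_div_assoc]
    apply div_le_div_of_nonneg_right _ (by positivity)
    have h6 : (0 : ℝ) ≤ p ^ (-(1 / 2) : ℝ) + q ^ (-(1 / 2) : ℝ) := by positivity
    have h7 := norm_nonneg x
    have h8 := abs_nonneg (Real.log (p / q))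
    nlinarith
  refine h5.trans ?_
  rcases le_total p q with h | h
  · have := aux_near hp0 h (by linarith)
    linarith
  · have := aux_near hq0 h (by linarith)
    rw [add_comm (q ^ (-(1 / 2) : ℝ)), mul_comm q p] at this
    linarith

theorem integrableOn_near (R : ℝ) : IntegrableOn near (ball 0 R) := by
  unfold near
  refine Integrable.const_mul (Integrable.add ?_ ?_) 16
  · exact integrableOn_ball (α := 3 / 2) (by norm_num) 1 R
  · have := integrableOn_ball (α := 3 / 2) (by norm_num) (-1) R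
    simp only [sub_neg_eq_add] at this
    exact this

theorem integrableOn_cst (c R : ℝ) : Integrable (fun _ : ℂ => c) (volume.restrict (ball 0 R)) :=
  integrableOn_const measure_ball_lt_top.ne

theorem G_le (x : ℂ) : G x ≤ 4 / 3 + near x := by
  rcases lt_or_ge ‖x‖ 2 with h | h
  · have := G_near h
    linarith
  · have h1 := G_far h
    have h2 := near_nonneg x
    have h3 : (16 : ℝ) / 3 / ‖x‖ ^ 2 ≤ 4 / 3 := by
      rw [div_le_iff₀ (by positivity)]
      nlinarith
    linarith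

theorem integrableOn_G (R : ℝ) : IntegrableOn G (ball 0 R) := by
  have h : IntegrableOn (fun x : ℂ => 4 / 3 + near x) (ball 0 R) :=
    Integrable.add (integrableOn_cst _ _) (integrableOn_near R)
  refine Integrable.mono' h measurable_G.aestronglyMeasurable.restrict ?_
  refine Filter.Eventually.of_forall fun x => ?_
  rw [Real.norm_of_nonneg (G_nonneg x)]
  exact G_le x

/-- the constant in the bound of `∫ G |x| ^ 2` -/
noncomputable def CG : ℝ := ∫ x in ball (0 : ℂ) 2, 4 * near x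

theorem CG_nonneg : 0 ≤ CG := by
  unfold CG
  exact integral_nonneg fun x => by have := near_nonneg x; positivity

theorem integrableOn_G_sq (R : ℝ) : IntegrableOn (fun x => G x * ‖x‖ ^ 2) (ball 0 R) := by
  have h := (integrableOn_G R).mul_const (R ^ 2)
  refine Integrable.mono' h ?_ ?_
  · have := measurable_G
    exact (by fun_prop : Measurable fun x => G x * ‖x‖ ^ 2).aestronglyMeasurable.restrict
  · refine (ae_restrict_iff' measurableSet_ball).2 (Filter.Eventually.of_forall fun x hx => ?_)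
    have h1 : ‖x‖ < R := by simpa using hx
    have h2 := G_nonneg x
    rw [Real.norm_of_nonneg (by positivity)]
    have h3 : ‖x‖ ^ 2 ≤ R ^ 2 := by
      have := norm_nonneg x
      nlinarith
    exact mul_le_mul_of_nonneg_left h3 h2

theorem integral_G_sq_le {R : ℝ} (hR : 2 ≤ R) :
    ∫ x in ball (0 : ℂ) R, G x * ‖x‖ ^ 2 ≤ 16 / 3 * Real.pi * R ^ 2 + CG := by
  have h1 : ∫ x in ball (0 : ℂ) R, G x * ‖x‖ ^ 2 ≤
      ∫ x in ball (0 : ℂ) R, (16 / 3 + (ball (0 : ℂ) 2).indicator (fun x => 4 * near x) x) := by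
    refine setIntegral_mono_on (integrableOn_G_sq R) ?_ measurableSet_ball fun x _ => ?_
    · refine Integrable.add (integrableOn_cst _ _) ?_
      refine Integrable.indicator ?_ measurableSet_ball
      exact (integrableOn_near R).const_mul 4
    · by_cases hx : x ∈ ball (0 : ℂ) 2
      · rw [indicator_of_mem hx]
        have h2 : ‖x‖ < 2 := by simpa using hx
        have h3 := G_near h2
        have h4 := G_nonneg x
        have h5 := norm_nonneg x
        have h6 : ‖x‖ ^ 2 ≤ 4 := by nlinarith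
        nlinarith
      · rw [indicator_of_notMem hx]
        have h2 : 2 ≤ ‖x‖ := by simpa using hx
        have h3 := G_far h2
        rw [le_div_iff₀ (by positivity)] at h3
        linarith
  refine h1.trans ?_
  rw [integral_add (integrableOn_cst _ _) (((integrableOn_near R).const_mul 4).indicator
    measurableSet_ball), setIntegral_indicator measurableSet_ball]
  have h2 : ball (0 : ℂ) R ∩ ball 0 2 = ball 0 2 := inter_eq_right.2 (ball_subset_ball hR)
  rw [h2]
  have h3 : ∫ _ in ball (0 : ℂ) R, (16 / 3 : ℝ) = 16 / 3 * Real.pi * R ^ 2 := by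
    rw [setIntegral_const, Measure.real, Complex.volume_ball]
    rw [ENNReal.toReal_mul, ENNReal.toReal_pow, ENNReal.toReal_ofReal (by linarith)]
    simp only [smul_eq_mul]
    have : (ENNReal.toReal (NNReal.pi : ENNReal)) = Real.pi := by
      simp
    rw [this]
    ring
  rw [h3]
  rfl

theorem Lam_conj (x : ℂ) : Lam (conj x) = Lam x := by
  unfold Lam
  have h1 : ‖conj x - 1‖ = ‖x - 1‖ := by
    rw [← Complex.norm_conj (x - 1)]
    simp
  have h2 : ‖conj x + 1‖ = ‖x + 1‖ := by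
    rw [← Complex.norm_conj (x + 1)]
    simp
  rw [h1, h2]

theorem norm_conj_sq (x : ℂ) : ‖conj x ^ 2 - 1‖ = ‖x ^ 2 - 1‖ := by
  rw [← Complex.norm_conj (x ^ 2 - 1)]
  simp

theorem integral_odd (R : ℝ) :
    ∫ x in ball (0 : ℂ) R, Lam x * x.im / ‖x ^ 2 - 1‖ = 0 := by
  have h1 : ∫ x : ℂ, (ball (0 : ℂ) R).indicator (fun x => Lam x * x.im / ‖x ^ 2 - 1‖) (conj x) =
      ∫ x : ℂ, (ball (0 : ℂ) R).indicator (fun x => Lam x * x.im / ‖x ^ 2 - 1‖) x := by
    have h := Complex.conjLIE.measurePreserving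
    exact h.integral_comp Complex.conjLIE.toHomeomorph.measurableEmbedding _
  have h2 : (fun x : ℂ => (ball (0 : ℂ) R).indicator (fun x => Lam x * x.im / ‖x ^ 2 - 1‖)
      (conj x)) = fun x => - (ball (0 : ℂ) R).indicator (fun x => Lam x * x.im / ‖x ^ 2 - 1‖) x := by
    funext x
    by_cases hx : x ∈ ball (0 : ℂ) R
    · have hx' : conj x ∈ ball (0 : ℂ) R := by simpa using hx
      rw [indicator_of_mem hx, indicator_of_mem hx', Lam_conj, norm_conj_sq, Complex.conj_im]
      ring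
    · have hx' : conj x ∉ ball (0 : ℂ) R := by simpa using hx
      rw [indicator_of_notMem hx, indicator_of_notMem hx', neg_zero]
  rw [h2, integral_neg] at h1
  rw [← integral_indicator measurableSet_ball]
  linarith

end Pool.Agent.H840.KO
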