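import Pool.Agent.H840.KO.Fin
set_option autoImplicit false

/-!
The two curves, and the main theorem.
-/

namespace Pool.Agent.H840.KO

open Polynomial MeasureTheory Filter

open scoped ComplexConjugate

theorem Dat.sq {l₁ l₂ A u w t p q k : ℂ} (h : Dat l₁ l₂ A u w t p q) (hk : p * q = k * w)
    (hl : l₂ ≠ 0) : (w / t) ^ 2 = -(A * (k / l₂)) := by
  have e1 : -(t ^ 2 * (p * q) * A) = l₂ * w ^ 3 := by
    have : -(t ^ 2 * (p * q) * A) = (-u * p) * ((1 - u) * q) * ((1 - l₂ * u) * A) := by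
      rw [h.ht]; ring
    rw [this, ← h.h1, ← h.h2, ← h.h3]
    ring
  rw [hk] at e1
  have e2 : -(t ^ 2 * k * A) = l₂ * w ^ 2 := by
    apply mul_right_cancel₀ h.hw
    linear_combination e1
  have := h.ht0
  field_simp
  linear_combination -e2

theorem exists_sqrt (x : ℂ) : ∃ y : ℂ, y ^ 2 = x := by
  obtain ⟨y, hy⟩ := IsSquare.exists_sq x (IsAlgClosed.exists_eq_mul_self x)
  exact ⟨y, hy.symm⟩

/-- the first curve -/
theorem dat_one {m n W : ℂ} (hW : W = 1 - m + m * n) (hW0 : W ≠ 0) (hm : m ≠ 0) (hn : n ≠ 0)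
    (hm1 : 1 - m ≠ 0) (hn1 : 1 - n ≠ 0) :
    ∃ t : ℂ, Dat m n (-(m * n) / W) (1 / W) (-(1 / W) * (-(m * n) / W + m)) t
      (-(m * n) / W + m) (-(m * n) / W + 1) := by
  obtain ⟨t, ht⟩ := exists_sqrt ((1 / W) * (1 - 1 / W) * (1 - n * (1 / W)))
  have f1 : -(m * n) / W + m = m * (1 - m) * (1 - n) / W := by
    field_simp; rw [hW]; ring
  have f2 : -(m * n) / W + 1 = (1 - m) / W := by
    field_simp; rw [hW]; ring
  have f3 : 1 - 1 / W = -(m * (1 - n)) / W := by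
    field_simp; rw [hW]; ring
  have f4 : 1 - n * (1 / W) = (1 - m) * (1 - n) / W := by
    field_simp; rw [hW]; ring
  refine ⟨t, Or.inl ⟨rfl, rfl⟩, rfl, ?_, ?_, ht, hm, ?_, ?_, ?_⟩
  · rw [f1, f2, f3]; field_simp
  · rw [f1, f4]; field_simp
  · exact div_ne_zero (neg_ne_zero.2 (mul_ne_zero hm hn)) hW0
  · rw [f1]
    exact mul_ne_zero (neg_ne_zero.2 (one_div_ne_zero hW0))
      (div_ne_zero (mul_ne_zero (mul_ne_zero hm hm1) hn1) hW0)
  · rintro rfl
    rw [zero_pow two_ne_zero, f3, f4] at ht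
    have : (1 / W) * (-(m * (1 - n)) / W) * ((1 - m) * (1 - n) / W) ≠ 0 :=
      mul_ne_zero (mul_ne_zero (one_div_ne_zero hW0)
        (div_ne_zero (neg_ne_zero.2 (mul_ne_zero hm hn1)) hW0))
        (div_ne_zero (mul_ne_zero hm1 hn1) hW0)
    exact this ht.symm

/-- the second curve -/
theorem dat_two {m n W : ℂ} (hW : W = 1 - m - n) (hW0 : W ≠ 0) (hm : m ≠ 0) (hn : n ≠ 0)
    (hm1 : 1 - m ≠ 0) (hn1 : 1 - n ≠ 0) :
    ∃ t : ℂ, Dat m n (m * n / W) (-m / W) (-(-m / W) * (m * n / W + 1)) t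
      (m * n / W + 1) (m * n / W + m) := by
  obtain ⟨t, ht⟩ := exists_sqrt ((-m / W) * (1 - -m / W) * (1 - n * (-m / W)))
  have f1 : m * n / W + m = m * (1 - m) / W := by
    field_simp; rw [hW]; ring
  have f2 : m * n / W + 1 = (1 - m) * (1 - n) / W := by
    field_simp; rw [hW]; ring
  have f3 : 1 - -m / W = (1 - n) / W := by
    field_simp; rw [hW]; ring
  have f4 : 1 - n * (-m / W) = (1 - m) * (1 - n) / W := by
    field_simp; rw [hW]; ring
  refine ⟨t, Or.inr ⟨rfl, rfl⟩, rfl, ?_, ?_, ht, hm, ?_, ?_, ?_⟩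
  · rw [f1, f2, f3]; field_simp
  · rw [f2, f4]; field_simp
  · exact div_ne_zero (mul_ne_zero hm hn) hW0
  · rw [f2]
    exact mul_ne_zero (neg_ne_zero.2 (div_ne_zero (neg_ne_zero.2 hm) hW0))
      (div_ne_zero (mul_ne_zero hm1 hn1) hW0)
  · rintro rfl
    rw [zero_pow two_ne_zero, f3, f4] at ht
    have : (-m / W) * ((1 - n) / W) * ((1 - m) * (1 - n) / W) ≠ 0 :=
      mul_ne_zero (mul_ne_zero (div_ne_zero (neg_ne_zero.2 hm) hW0)
        (div_ne_zero hn1 hW0))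
        (div_ne_zero (mul_ne_zero hm1 hn1) hW0)
    exact this ht.symm

theorem main_small {R0 : ℝ} (hR : 16 ≤ R0)
    (hb : ∀ S T : ℂ, R0 ≤ ‖S‖ → 4 * ‖S‖ ≤ ‖T‖ → (MM S T).re < 0 ∧ 4 * |(MM S T).im| ≤ -(MM S T).re)
    {m n : ℂ} (hm : m ≠ 0) (hn : n ≠ 0) (hm' : ‖m‖ < 1 / (4 * R0)) (hn' : ‖n‖ < 1 / (4 * R0))
    {l₁ l₂ c₁ c₂ : ℂ} (hc₁ : c₁ ≠ 0) (hc₂ : c₂ ≠ 0) (hr₁ : RelC c₁ m l₁) (hr₂ : RelC c₂ n l₂) :
    ∃ D D' : Datum l₁ l₂, D.IsK1 ∧ D'.IsK1 ∧ LinearIndependent ℝ ![D.reg, D'.reg] := by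
  have hR0 : 0 < R0 := by linarith
  have h64 : 1 / (4 * R0) ≤ 1 / 64 := one_div_le_one_div_of_le (by norm_num) (by linarith)
  have hmp := norm_pos_iff.2 hm
  have hnp := norm_pos_iff.2 hn
  have m1 : 63 / 64 ≤ ‖1 - m‖ := by
    have := norm_sub_norm_le 1 m
    rw [norm_one] at this
    linarith
  have n1 : 63 / 64 ≤ ‖1 - n‖ := by
    have := norm_sub_norm_le 1 n
    rw [norm_one] at this
    linarith
  have m2 : ‖1 - m‖ ≤ 65 / 64 := by
    have := norm_sub_le 1 m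
    rw [norm_one] at this
    linarith
  have n2 : ‖1 - n‖ ≤ 65 / 64 := by
    have := norm_sub_le 1 n
    rw [norm_one] at this
    linarith
  have hm1 : 1 - m ≠ 0 := norm_pos_iff.1 (by linarith)
  have hn1 : 1 - n ≠ 0 := norm_pos_iff.1 (by linarith)
  have hW0 : 1 - m + m * n ≠ 0 := by
    intro h
    have h1 : 1 - m = -(m * n) := by linear_combination h
    rw [h1, norm_neg, norm_mul] at m1
    nlinarith
  have hV0 : 1 - m - n ≠ 0 := by
    intro h
    have h1 : 1 - m = n := by linear_combination h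
    rw [h1] at m1
    linarith
  obtain ⟨t, d1⟩ := dat_one rfl hW0 hm hn hm1 hn1
  obtain ⟨t', d2⟩ := dat_two rfl hV0 hm hn hm1 hn1
  set W := 1 - m + m * n with hW
  set V := 1 - m - n with hV
  have f1 : -(m * n) / W + m = m * (1 - m) * (1 - n) / W := by
    field_simp; rw [hW]; ring
  have f2 : -(m * n) / W + 1 = (1 - m) / W := by
    field_simp; rw [hW]; ring
  have g1 : m * n / V + m = m * (1 - m) / V := by
    field_simp; rw [hV]; ring
  have g2 : m * n / V + 1 = (1 - m) * (1 - n) / V := by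
    field_simp; rw [hV]; ring
  obtain ⟨a, ha⟩ := exists_sqrt (-(m * n) / W)
  obtain ⟨b, hb'⟩ := exists_sqrt (m * n / V)
  obtain ⟨D, hD, c, hc, hreg⟩ := exists_datum d1 ha
    (by rw [f1]; exact div_ne_zero (mul_ne_zero (mul_ne_zero hm hm1) hn1) hW0)
    (by rw [f2]; exact div_ne_zero hm1 hW0) hr₁ hr₂
  obtain ⟨D', hD', c', hc', hreg'⟩ := exists_datum d2 hb'
    (by rw [g1]; exact div_ne_zero (mul_ne_zero hm hm1) hV0)
    (by rw [g2]; exact div_ne_zero (mul_ne_zero hm1 hn1) hV0) hr₁ hr₂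
  refine ⟨D, D', hD, hD', ?_⟩
  -- the estimates
  have key : ∀ S T : ℂ, ‖S‖ * ‖n‖ ≥ 1 / 4 → ‖T‖ * ‖m‖ ≥ 1 / 4 * ‖S‖ → R0 ≤ ‖S‖ ∧ 4 * ‖S‖ ≤ ‖T‖ := by
    intro S T h1 h2
    rw [lt_div_iff₀ (by positivity)] at hn'
    constructor
    · have : R0 * ‖n‖ ≤ ‖S‖ * ‖n‖ := by linarith
      exact le_of_mul_le_mul_right this hnp
    · have h3 : ‖m‖ ≤ 1 / 16 := by linarith
      have h4 : (4 * ‖S‖) * ‖m‖ ≤ ‖T‖ * ‖m‖ := by
        have := norm_nonneg S
        nlinarith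
      exact le_of_mul_le_mul_right h4 hmp
  have b1 : (MM ((-(m * n) / W + m) / (-(m * n) / W)) ((-(m * n) / W + 1) / (-(m * n) / W))).re < 0 ∧
      4 * |(MM ((-(m * n) / W + m) / (-(m * n) / W)) ((-(m * n) / W + 1) / (-(m * n) / W))).im| ≤
        -(MM ((-(m * n) / W + m) / (-(m * n) / W)) ((-(m * n) / W + 1) / (-(m * n) / W))).re := by
    have e1 : ((-(m * n) / W + m) / (-(m * n) / W)) = -((1 - m) * (1 - n) / n) := by
      rw [f1]; field_simp
    have e2 : ((-(m * n) / W + 1) / (-(m * n) / W)) = -((1 - m) / (m * n)) := by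
      rw [f2]; field_simp
    have e3 := key ((-(m * n) / W + m) / (-(m * n) / W)) ((-(m * n) / W + 1) / (-(m * n) / W)) (by
        rw [e1, norm_neg, norm_div, norm_mul, div_mul_cancel₀ _ hnp.ne']
        nlinarith) (by
        rw [e1, e2, norm_neg, norm_neg, norm_div, norm_div, norm_mul, norm_mul]
        rw [show ‖1 - m‖ / (‖m‖ * ‖n‖) * ‖m‖ = ‖1 - m‖ / ‖n‖ by field_simp]
        rw [ge_iff_le, ← mul_div_assoc]
        apply div_le_div_of_nonneg_right _ hnp.le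
        nlinarith)
    exact hb _ _ e3.1 e3.2
  have b2 : (MM ((m * n / V + m) / (m * n / V)) ((m * n / V + 1) / (m * n / V))).re < 0 ∧
      4 * |(MM ((m * n / V + m) / (m * n / V)) ((m * n / V + 1) / (m * n / V))).im| ≤
        -(MM ((m * n / V + m) / (m * n / V)) ((m * n / V + 1) / (m * n / V))).re := by
    have e1 : ((m * n / V + m) / (m * n / V)) = (1 - m) / n := by
      rw [g1]; field_simp
    have e2 : ((m * n / V + 1) / (m * n / V)) = (1 - m) * (1 - n) / (m * n) := by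
      rw [g2]; field_simp
    have e3 := key ((m * n / V + m) / (m * n / V)) ((m * n / V + 1) / (m * n / V)) (by
        rw [e1, norm_div, div_mul_cancel₀ _ hnp.ne']
        linarith) (by
        rw [e1, e2, norm_div, norm_div, norm_mul, norm_mul]
        rw [show ‖1 - m‖ * ‖1 - n‖ / (‖m‖ * ‖n‖) * ‖m‖ = ‖1 - m‖ * ‖1 - n‖ / ‖n‖ by field_simp]
        rw [ge_iff_le, ← mul_div_assoc]
        apply div_le_div_of_nonneg_right _ hnp.le
        nlinarith)
    exact hb _ _ e3.1 e3.2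
  -- the squares
  have s1 := d1.sq (k := -(1 - m)) (by rw [f1, f2]; field_simp) hn
  have s2 := d2.sq (k := 1 - m) (by rw [g1, g2]; field_simp) hn
  set A := -(m * n) / W with hA
  set B := m * n / V with hB
  have hA0 : A ≠ 0 := d1.hA
  have hB0 : B ≠ 0 := d2.hA
  have hκ : conj ((1 - m) / n) ≠ 0 := by
    rw [Ne, map_eq_zero]
    exact div_ne_zero hm1 hn
  refine indep (κ := conj ((1 - m) / n)) (c := -8 * (c₁ * conj c₂)) (A := A) (B := B) ?_ hc hc' hκ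
    hA0 hB0 ?_ ?_ b1 b2 hreg hreg'
  · refine mul_ne_zero (by norm_num) (mul_ne_zero hc₁ ?_)
    rwa [Ne, map_eq_zero]
  · rw [mul_pow, ← map_pow, s1, ha, map_neg, map_mul, ← Complex.conj_mul' A]
    rw [neg_div, map_neg]
    ring
  · rw [mul_pow, ← map_pow, s2, hb', map_neg, map_mul, ← Complex.conj_mul' B]
    ring

theorem main {l₁ l₂ : ℂ} (h₁ : l₁ ≠ 0) (h₁' : l₁ ≠ 1) (h₂ : l₂ ≠ 0) (h₂' : l₂ ≠ 1) :
    ∃ D D' : Datum l₁ l₂, D.IsK1 ∧ D'.IsK1 ∧ LinearIndependent ℝ ![D.reg, D'.reg] := by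
  obtain ⟨R0, hR, hb⟩ := exists_bound
  have hδ : 0 < 1 / (4 * R0) := by positivity
  obtain ⟨m, hm, hm', c₁, hc₁, r₁⟩ := rel_all h₁ h₁' hδ
  obtain ⟨n, hn, hn', c₂, hc₂, r₂⟩ := rel_all h₂ h₂' hδ
  exact main_small hR hb hm hn hm' hn' hc₁ hc₂ r₁ r₂

/-- Rational combinations of two real-linearly independent complex numbers are dense. -/
theorem dense_of_indep {u v : ℂ} (h : LinearIndependent ℝ ![u, v]) {s : Set ℂ} (hu : u ∈ s)
    (hv : v ∈ s) : Dense (Submodule.span ℚ s : Set ℂ) := by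
  have h1 : Submodule.span ℝ (Set.range ![u, v]) = ⊤ :=
    h.span_eq_top_of_card_eq_finrank (by simp [Complex.finrank_real_complex])
  have h2 : Function.Surjective fun x : ℝ × ℝ => x.1 • u + x.2 • v := by
    intro z
    have hz : z ∈ Submodule.span ℝ (Set.range ![u, v]) := by rw [h1]; trivial
    have hr : Set.range ![u, v] = {u, v} := by
      simp [Matrix.range_cons, Matrix.range_empty, Set.pair_comm]
    rw [hr, Submodule.mem_span_pair] at hz
    obtain ⟨a, b, hab⟩ := hz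
    exact ⟨(a, b), hab⟩
  have h3 : Continuous fun x : ℝ × ℝ => x.1 • u + x.2 • v := by fun_prop
  have h4 : DenseRange (Prod.map ((↑) : ℚ → ℝ) ((↑) : ℚ → ℝ)) :=
    Rat.denseRange_cast.prodMap Rat.denseRange_cast
  have h5 := h2.denseRange.comp h4 h3
  refine h5.mono ?_
  rintro _ ⟨x, rfl⟩
  change ((x.1 : ℝ) • u + (x.2 : ℝ) • v) ∈ (Submodule.span ℚ s : Set ℂ)
  have e1 : ((x.1 : ℝ) • u) = x.1 • u := by
    rw [Complex.real_smul, Rat.smul_def, Complex.ofReal_ratCast]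
  have e2 : ((x.2 : ℝ) • v) = x.2 • v := by
    rw [Complex.real_smul, Rat.smul_def, Complex.ofReal_ratCast]
  rw [e1, e2]
  exact Submodule.add_mem _ (Submodule.smul_mem _ _ (Submodule.subset_span hu))
    (Submodule.smul_mem _ _ (Submodule.subset_span hv))

end Pool.Agent.H840.KO
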