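import Pool.Agent.H840.KO.Lam
set_option autoImplicit false

/-!
Complex scaling of integrals over the complex plane, and the function `1 / (|x| |x ^ 2 - S|)`.
-/

namespace Pool.Agent.H840.KO

open MeasureTheory Set Metric

/-- Change of variables `x ↦ s * x`. -/
theorem integral_comp_mul {E : Type*} [NormedAddCommGroup E] [NormedSpace ℝ E] (f : ℂ → E) {s : ℂ}
    (hs : s ≠ 0) : ∫ x : ℂ, f (s * x) = (‖s‖ ^ 2)⁻¹ • ∫ x : ℂ, f x := by
  have hn : ‖s‖ ≠ 0 := norm_ne_zero_iff.2 hs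
  have h1 : ‖s / ‖s‖‖ = 1 := by
    rw [norm_div, Complex.norm_real, norm_norm, div_self hn]
  let v : Circle := ⟨s / ‖s‖, mem_sphere_zero_iff_norm.2 h1⟩
  have h2 : ∀ x : ℂ, s * x = rotation v (‖s‖ • x) := by
    intro x
    rw [rotation_apply, Complex.real_smul]
    change s * x = (s / ‖s‖) * (‖s‖ * x)
    have : (‖s‖ : ℂ) ≠ 0 := by exact_mod_cast hn
    field_simp
  have h3 : ∫ x : ℂ, f (s * x) = ∫ x : ℂ, f (rotation v (‖s‖ • x)) := by
    congr 1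
    funext x
    rw [h2]
  rw [h3, Measure.integral_comp_smul volume (fun y => f (rotation v y)) ‖s‖]
  have h4 : ∫ y : ℂ, f (rotation v y) = ∫ y : ℂ, f y :=
    (rotation v).measurePreserving.integral_comp
      (rotation v).toHomeomorph.measurableEmbedding f
  rw [h4, Complex.finrank_real_complex, abs_of_pos (by positivity)]

theorem integrable_comp_mul {E : Type*} [NormedAddCommGroup E] [NormedSpace ℝ E] {f : ℂ → E}
    (hf : Integrable f) {s : ℂ} (hs : s ≠ 0) : Integrable fun x : ℂ => f (s * x) := by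
  have hn : ‖s‖ ≠ 0 := norm_ne_zero_iff.2 hs
  have h1 : ‖s / ‖s‖‖ = 1 := by
    rw [norm_div, Complex.norm_real, norm_norm, div_self hn]
  let v : Circle := ⟨s / ‖s‖, mem_sphere_zero_iff_norm.2 h1⟩
  have h2 : (fun x : ℂ => f (s * x)) = fun x => f (rotation v (‖s‖ • x)) := by
    funext x
    rw [rotation_apply, Complex.real_smul]
    change _ = f ((s / ‖s‖) * (‖s‖ * x))
    have : (‖s‖ : ℂ) ≠ 0 := by exact_mod_cast hn
    congr 1
    field_simp
  rw [h2]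
  have h4 : Integrable fun y : ℂ => f (rotation v y) :=
    ((rotation v).measurePreserving.integrable_comp_emb
      (rotation v).toHomeomorph.measurableEmbedding).2 hf
  exact (integrable_comp_smul_iff volume (fun y => f (rotation v y)) hn).2 h4

/-- `1 / (|x| |x ^ 2 - S|)` -/
noncomputable def hS (S x : ℂ) : ℝ := ‖x‖⁻¹ * ‖x ^ 2 - S‖⁻¹

theorem hS_nonneg (S x : ℂ) : 0 ≤ hS S x := by
  unfold hS; positivity

theorem hS_eq {s : ℂ} (hs : s ≠ 0) (x : ℂ) : hS (s ^ 2) x = (‖s‖ ^ 3)⁻¹ * hone (s⁻¹ * x) := by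
  unfold hS hone
  have hn : ‖s‖ ≠ 0 := norm_ne_zero_iff.2 hs
  have h1 : ‖(s⁻¹ * x) ^ 2 - 1‖ = (‖s‖ ^ 2)⁻¹ * ‖x ^ 2 - s ^ 2‖ := by
    rw [← norm_pow, ← norm_inv, ← norm_mul]
    congr 1
    field_simp
  rw [h1, norm_mul, norm_inv]
  rw [show ‖s‖⁻¹ * ‖x‖ * ((‖s‖ ^ 2)⁻¹ * ‖x ^ 2 - s ^ 2‖) =
    (‖s‖ ^ 3)⁻¹ * (‖x‖ * ‖x ^ 2 - s ^ 2‖) by field_simp]
  rw [mul_inv, inv_inv, mul_inv, ← mul_assoc, inv_mul_cancel₀ (pow_ne_zero 3 hn), one_mul]

theorem integrable_hS {S : ℂ} (hS0 : S ≠ 0) : Integrable (hS S) := by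
  obtain ⟨s, hs⟩ := IsSquare.exists_sq S (IsAlgClosed.exists_eq_mul_self S)
  have hs0 : s ≠ 0 := by rintro rfl; exact hS0 (by rw [hs]; ring)
  subst hs
  have : hS (s ^ 2) = fun x => (‖s‖ ^ 3)⁻¹ * hone (s⁻¹ * x) := funext (hS_eq hs0)
  rw [this]
  exact (integrable_comp_mul integrable_hone (inv_ne_zero hs0)).const_mul _

/-- the integral of `1 / (|x| |x ^ 2 - 1|)` -/
noncomputable def CH : ℝ := ∫ x : ℂ, hone x

theorem CH_nonneg : 0 ≤ CH := integral_nonneg hone_nonneg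

theorem integral_hS {S : ℂ} (hS0 : S ≠ 0) : ∫ x : ℂ, hS S x = (Real.sqrt ‖S‖)⁻¹ * CH := by
  obtain ⟨s, hs⟩ := IsSquare.exists_sq S (IsAlgClosed.exists_eq_mul_self S)
  have hs0 : s ≠ 0 := by rintro rfl; exact hS0 (by rw [hs]; ring)
  subst hs
  have hn : ‖s‖ ≠ 0 := norm_ne_zero_iff.2 hs0
  have : hS (s ^ 2) = fun x => (‖s‖ ^ 3)⁻¹ * hone (s⁻¹ * x) := funext (hS_eq hs0)
  rw [this, integral_const_mul, integral_comp_mul _ (inv_ne_zero hs0), norm_pow,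
    Real.sqrt_sq (norm_nonneg _), norm_inv]
  simp only [smul_eq_mul]
  unfold CH
  field_simp

end Pool.Agent.H840.KO
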