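import Pool.Agent.H840.KO.Isog
set_option autoImplicit false

/-!
The points of the curve over a branch point, and the involution.
-/

namespace Pool.Agent.H840.KO

open Polynomial WithZero

variable {P : ℂ[X]}

/-- `ofRat` as a ring homomorphism -/
noncomputable def rat (P : ℂ[X]) : RatFunc ℂ →+* FF P := AdjoinRoot.of (defPoly P)

theorem rat_apply (g : RatFunc ℂ) : rat P g = ofRat P g := rfl

theorem vee_sq : vee P ^ 2 = ofRat P (algebraMap ℂ[X] (RatFunc ℂ) P) := by
  have h := AdjoinRoot.eval₂_root (defPoly P)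
  unfold defPoly at h
  rw [eval₂_sub, eval₂_pow, eval₂_X, eval₂_C, sub_eq_zero] at h
  exact h

theorem exists_repr (y : FF P) : ∃ g h : RatFunc ℂ, y = ofRat P g + ofRat P h * vee P := by
  obtain ⟨p, rfl⟩ := AdjoinRoot.mk_surjective y
  have hm : (defPoly P).Monic := by
    unfold defPoly
    exact monic_X_pow_sub_C _ two_ne_zero
  have hd : (defPoly P).natDegree = 2 := by
    unfold defPoly
    exact natDegree_X_pow_sub_C
  have h1 : AdjoinRoot.mk (defPoly P) p = AdjoinRoot.mk (defPoly P) (p %ₘ defPoly P) := by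
    rw [AdjoinRoot.mk_eq_mk]
    refine ⟨p /ₘ defPoly P, ?_⟩
    rw [sub_eq_iff_eq_add, add_comm]
    exact (modByMonic_add_div p (defPoly P)).symm
  have h2 : (p %ₘ defPoly P).natDegree < 2 := by
    rw [← hd]
    exact natDegree_modByMonic_lt _ hm (by intro h; rw [h] at hd; simp at hd)
  have h3 : p %ₘ defPoly P = C ((p %ₘ defPoly P).coeff 1) * X + C ((p %ₘ defPoly P).coeff 0) :=
    eq_X_add_C_of_natDegree_le_one (by omega)
  refine ⟨(p %ₘ defPoly P).coeff 0, (p %ₘ defPoly P).coeff 1, ?_⟩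
  rw [h1]
  conv_lhs => rw [h3]
  rw [map_add, map_mul, AdjoinRoot.mk_C, AdjoinRoot.mk_C, AdjoinRoot.mk_X, add_comm]
  rfl

namespace Place

variable (p : Place P)

theorem one_C (c : ℂ) (hc : c ≠ 0) : p.w (rat P (RatFunc.C c)) = 1 := p.triv c hc

theorem le_C (c : ℂ) : p.w (rat P (RatFunc.C c)) ≤ 1 := by
  rcases eq_or_ne c 0 with rfl | hc
  · rw [map_zero, map_zero, map_zero]; exact zero_le_one
  · exact (p.one_C c hc).le

theorem w_ne_zero {g : RatFunc ℂ} (hg : g ≠ 0) : p.w (rat P g) ≠ 0 := by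
  intro h
  have h1 : p.w (rat P g) * p.w (rat P g⁻¹) = 1 := by
    rw [← map_mul, ← map_mul, mul_inv_cancel₀ hg, map_one, map_one]
  rw [h, zero_mul] at h1
  exact zero_ne_one h1

theorem w_inv (g : RatFunc ℂ) : p.w (rat P g⁻¹) = (p.w (rat P g))⁻¹ := by
  rcases eq_or_ne g 0 with rfl | hg
  · simp
  · have h1 : p.w (rat P g) * p.w (rat P g⁻¹) = 1 := by
      rw [← map_mul, ← map_mul, mul_inv_cancel₀ hg, map_one, map_one]
    exact eq_inv_of_mul_eq_one_right h1

/-- `p` lies over `a` -/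
def Lies (a : ℂ) : Prop := p.w (rat P (RatFunc.X - RatFunc.C a)) < 1

theorem Lies.X_le {p : Place P} {a : ℂ} (h : p.Lies a) : p.w (rat P RatFunc.X) ≤ 1 := by
  have h1 : (RatFunc.X : RatFunc ℂ) = (RatFunc.X - RatFunc.C a) + RatFunc.C a := by ring
  rw [h1, map_add]
  exact Valuation.map_add_le _ (le_of_lt h) (p.le_C a)

theorem Lies.poly_le {p : Place P} {a : ℂ} (h : p.Lies a) (q : ℂ[X]) :
    p.w (rat P (algebraMap ℂ[X] (RatFunc ℂ) q)) ≤ 1 := by
  induction q using Polynomial.induction_on' with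
  | add f g hf hg =>
    rw [map_add, map_add]
    exact Valuation.map_add_le _ hf hg
  | monomial n c =>
    rw [← C_mul_X_pow_eq_monomial, map_mul, map_pow, RatFunc.algebraMap_C, RatFunc.algebraMap_X,
      map_mul, map_mul, map_pow, map_pow]
    exact mul_le_one' (p.le_C c) (pow_le_one' h.X_le n)

theorem Lies.poly_unit {p : Place P} {a : ℂ} (h : p.Lies a) {q : ℂ[X]} (hq : q.eval a ≠ 0) :
    p.w (rat P (algebraMap ℂ[X] (RatFunc ℂ) q)) = 1 := by
  have h1 : q = (X - C a) * (q /ₘ (X - C a)) + C (q.eval a) := by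
    have := modByMonic_add_div q (X - C a)
    rw [modByMonic_X_sub_C_eq_C_eval] at this
    rw [add_comm] at this
    exact this.symm
  rw [h1, map_add, map_mul, map_add, map_mul, map_sub, RatFunc.algebraMap_C, RatFunc.algebraMap_C,
    RatFunc.algebraMap_X]
  have h2 : p.w (rat P (RatFunc.X - RatFunc.C a) *
      rat P (algebraMap ℂ[X] (RatFunc ℂ) (q /ₘ (X - C a)))) < 1 := by
    rw [map_mul]
    exact mul_lt_one_of_lt_of_le h (h.poly_le _)
  have h3 := p.one_C _ hq
  rw [← h3] at h2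
  rw [Valuation.map_add_eq_of_lt_right _ h2]
  exact h3

theorem Lies.poly_pow {p : Place P} {a : ℂ} (h : p.Lies a) {q : ℂ[X]} (hq : q ≠ 0) :
    p.w (rat P (algebraMap ℂ[X] (RatFunc ℂ) q)) =
      p.w (rat P (RatFunc.X - RatFunc.C a)) ^ (q.rootMultiplicity a) := by
  obtain ⟨r, hr, hnd⟩ := exists_eq_pow_rootMultiplicity_mul_and_not_dvd q hq a
  conv_lhs => rw [hr]
  rw [map_mul, map_mul, map_mul, map_pow, map_pow, map_pow, map_sub, RatFunc.algebraMap_C,
    RatFunc.algebraMap_X, h.poly_unit (by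
      intro h0
      exact hnd (dvd_iff_isRoot.2 h0)), mul_one]

/-- the order at `a` of a rational function -/
noncomputable def mlt (a : ℂ) (g : RatFunc ℂ) : ℤ :=
  (g.num.rootMultiplicity a : ℤ) - g.denom.rootMultiplicity a

theorem Lies.rat_pow {p : Place P} {a : ℂ} (h : p.Lies a) {g : RatFunc ℂ} (hg : g ≠ 0) :
    p.w (rat P g) = p.w (rat P (RatFunc.X - RatFunc.C a)) ^ mlt a g := by
  have hX : p.w (rat P (RatFunc.X - RatFunc.C a)) ≠ 0 := by
    apply p.w_ne_zero
    rw [← RatFunc.algebraMap_X, ← RatFunc.algebraMap_C, ← map_sub]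
    intro h0
    have := (map_eq_zero_iff _ (RatFunc.algebraMap_injective ℂ)).1 h0
    exact X_sub_C_ne_zero a this
  unfold mlt
  rw [zpow_sub₀ hX, zpow_natCast, zpow_natCast, ← h.poly_pow (RatFunc.num_ne_zero hg),
    ← h.poly_pow g.denom_ne_zero]
  conv_lhs => rw [← RatFunc.num_div_denom g]
  rw [div_eq_mul_inv, map_mul, map_mul, p.w_inv, ← div_eq_mul_inv]

end Place

/-- `a` is a simple root of `P` -/
def Simple (P : ℂ[X]) (a : ℂ) : Prop := ∃ Q : ℂ[X], P = (X - C a) * Q ∧ Q.eval a ≠ 0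

namespace Place

variable {p : Place P} {a : ℂ}

theorem Lies.vee_sq (h : p.Lies a) (hs : Simple P a) :
    p.w (vee P) ^ 2 = p.w (rat P (RatFunc.X - RatFunc.C a)) := by
  obtain ⟨Q, hQ, hQa⟩ := hs
  have h1 : p.w (vee P ^ 2) = p.w (rat P (algebraMap ℂ[X] (RatFunc ℂ) P)) := by
    rw [Pool.Agent.H840.KO.vee_sq, rat_apply]
  rw [map_pow] at h1
  rw [h1]
  have h2 : algebraMap ℂ[X] (RatFunc ℂ) P = (RatFunc.X - RatFunc.C a) *
      algebraMap ℂ[X] (RatFunc ℂ) Q := by
    conv_lhs => rw [hQ]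
    rw [map_mul, map_sub, RatFunc.algebraMap_C, RatFunc.algebraMap_X]
  rw [h2, map_mul, map_mul, h.poly_unit hQa, mul_one]

theorem Lies.ne_zero (p : Place P) (a : ℂ) : p.w (rat P (RatFunc.X - RatFunc.C a)) ≠ 0 := by
  apply p.w_ne_zero
  rw [← RatFunc.algebraMap_X, ← RatFunc.algebraMap_C, ← map_sub]
  intro h0
  have := (map_eq_zero_iff _ (RatFunc.algebraMap_injective ℂ)).1 h0
  exact X_sub_C_ne_zero a this

theorem Lies.vee_ne (h : p.Lies a) (hs : Simple P a) : p.w (vee P) ≠ 0 := by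
  intro h0
  have := h.vee_sq hs
  rw [h0, zero_pow two_ne_zero] at this
  exact Lies.ne_zero p a this.symm

theorem Lies.vee_lt (h : p.Lies a) (hs : Simple P a) : p.w (vee P) < 1 := by
  have h1 := h.vee_sq hs
  have h2 : p.w (vee P) ^ 2 < 1 := by rw [h1]; exact h
  by_contra h3
  push Not at h3
  exact absurd (one_le_pow_of_one_le' h3 2) (not_le.2 h2)

theorem Lies.rat_vee (h : p.Lies a) (hs : Simple P a) {g : RatFunc ℂ} (hg : g ≠ 0) :
    p.w (rat P g) = p.w (vee P) ^ (2 * mlt a g) := by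
  rw [h.rat_pow hg, ← h.vee_sq hs, ← zpow_natCast, ← zpow_mul]
  rfl

theorem Lies.rat_mul_vee (h : p.Lies a) (hs : Simple P a) {g : RatFunc ℂ} (hg : g ≠ 0) :
    p.w (rat P g * vee P) = p.w (vee P) ^ (2 * mlt a g + 1) := by
  rw [map_mul, h.rat_vee hs hg, zpow_add₀ (h.vee_ne hs), zpow_one]

theorem Lies.zpow_inj (h : p.Lies a) (hs : Simple P a) {m n : ℤ}
    (hmn : p.w (vee P) ^ m = p.w (vee P) ^ n) : m = n := by
  have h0 := h.vee_ne hs
  have h1 := h.vee_lt hs
  by_contra hne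
  have hlog := congrArg log hmn
  rw [log_zpow, log_zpow, smul_eq_mul, smul_eq_mul] at hlog
  have h2 : log (p.w (vee P)) = 0 := by
    by_contra h3
    exact hne (mul_right_cancel₀ h3 hlog)
  have h3 : exp (log (p.w (vee P))) = p.w (vee P) := exp_log h0
  rw [h2, exp_zero] at h3
  rw [← h3] at h1
  exact lt_irrefl _ h1

/-- the valuation of `g + h v` -/
theorem Lies.formula (h : p.Lies a) (hs : Simple P a) (g k : RatFunc ℂ) :
    p.w (rat P g + rat P k * vee P) = max (p.w (rat P g)) (p.w (rat P k * vee P)) := by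
  rcases eq_or_ne g 0 with rfl | hg
  · rw [map_zero, zero_add, map_zero]
    exact (max_eq_right zero_le).symm
  rcases eq_or_ne k 0 with rfl | hk
  · rw [map_zero, zero_mul, add_zero, map_zero]
    exact (max_eq_left zero_le).symm
  have h1 := h.rat_vee hs hg
  have h2 := h.rat_mul_vee hs hk
  have hne : p.w (rat P g) ≠ p.w (rat P k * vee P) := by
    rw [h1, h2]
    intro h3
    have := h.zpow_inj hs h3
    omega
  rcases lt_or_gt_of_ne hne with h3 | h3
  · rw [Valuation.map_add_eq_of_lt_right _ h3, max_eq_right h3.le]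
  · rw [Valuation.map_add_eq_of_lt_left _ h3, max_eq_left h3.le]

theorem Lies.exists_zpow (h : p.Lies a) (hs : Simple P a) (y : FF P) (hy : p.w y ≠ 0) :
    ∃ n : ℤ, p.w y = p.w (vee P) ^ n := by
  obtain ⟨g, k, rfl⟩ := exists_repr y
  rw [← rat_apply, ← rat_apply] at hy ⊢
  rw [h.formula hs] at hy ⊢
  rcases max_choice (p.w (rat P g)) (p.w (rat P k * vee P)) with h1 | h1
  · rw [h1] at hy ⊢
    have hg : g ≠ 0 := by
      rintro rfl
      rw [map_zero, map_zero] at hy
      exact hy rfl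
    exact ⟨_, h.rat_vee hs hg⟩
  · rw [h1] at hy ⊢
    have hk : k ≠ 0 := by
      rintro rfl
      rw [map_zero, zero_mul, map_zero] at hy
      exact hy rfl
    exact ⟨_, h.rat_mul_vee hs hk⟩

theorem Lies.vee_eq (h : p.Lies a) (hs : Simple P a) : p.w (vee P) = exp (-1 : ℤ) := by
  obtain ⟨y, hy⟩ := p.surj (exp (-1 : ℤ))
  obtain ⟨n, hn⟩ := h.exists_zpow hs y (by rw [hy]; exact exp_ne_zero)
  rw [hy] at hn
  have h1 := congrArg log hn
  rw [log_zpow, log_exp, smul_eq_mul] at h1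
  have h2 : log (p.w (vee P)) < 0 := by
    have := h.vee_lt hs
    rw [← exp_log (h.vee_ne hs), ← exp_zero, exp_lt_exp] at this
    exact this
  have h3 : log (p.w (vee P)) = -1 := by
    have h4 : log (p.w (vee P)) ∣ -1 := ⟨n, by rw [h1]; ring⟩
    have h5 : log (p.w (vee P)) ∣ 1 := (dvd_neg).1 h4
    rcases Int.isUnit_iff.1 (isUnit_of_dvd_one h5) with h6 | h6
    · rw [h6] at h2; norm_num at h2
    · exact h6
  rw [← h3, exp_log (h.vee_ne hs)]

theorem ext' {p q : Place P} (h : ∀ y, p.w y = q.w y) : p = q := by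
  obtain ⟨w, _, _⟩ := p
  obtain ⟨w', _, _⟩ := q
  have : w = w' := Valuation.ext h
  subst this
  rfl

theorem Lies.unique {p q : Place P} (hp : p.Lies a) (hq : q.Lies a) (hs : Simple P a) : p = q := by
  apply ext'
  intro y
  have e : p.w (vee P) = q.w (vee P) := by rw [hp.vee_eq hs, hq.vee_eq hs]
  have h1 : ∀ g : RatFunc ℂ, p.w (rat P g) = q.w (rat P g) := by
    intro g
    rcases eq_or_ne g 0 with rfl | hg
    · simp
    · rw [hp.rat_vee hs hg, hq.rat_vee hs hg, e]
  obtain ⟨g, k, rfl⟩ := exists_repr y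
  rw [← rat_apply, ← rat_apply, hp.formula hs, hq.formula hs, map_mul, map_mul, h1, h1, e]

/-- odd functions do not have valuation one -/
theorem Lies.odd_ne_one (h : p.Lies a) (hs : Simple P a) (g : RatFunc ℂ) :
    p.w (rat P g * vee P) ≠ 1 := by
  rcases eq_or_ne g 0 with rfl | hg
  · rw [map_zero, zero_mul, map_zero]
    exact zero_ne_one
  · rw [h.rat_mul_vee hs hg]
    intro h1
    have h2 : p.w (vee P) ^ (2 * mlt a g + 1) = p.w (vee P) ^ (0 : ℤ) := by rw [h1, zpow_zero]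
    have := h.zpow_inj hs h2
    omega

end Place

end Pool.Agent.H840.KO
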